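import Pool.Agent.SGL.DefsU

/-!
# Squad SGL, upgrade U: two inclusions of classes

`wlu`: the class `Lvl` (in particular every weakly leveled planar graph) is contained in `LvU`;
`tlu`: two-track graphs are contained in `LvU` (with `h = 1`).
-/

set_option autoImplicit false

noncomputable section

namespace Pool.Agent.SGL.H90

open Pool.Agent.SGE Pool.Agent.SGP Pool.Agent.SGY Pool.Agent.SGD Pool.Agent.SGL

theorem two_ne {n : ℕ} (hn : 3 ≤ n) (t w : Fin n) : ∃ v : Fin n, v ≠ t ∧ v ≠ w := by
  by_contra hno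
  simp only [not_exists, not_and, not_not] at hno
  have h1 : (Finset.univ : Finset (Fin n)) ⊆ {t, w} := by
    intro v _
    rw [Finset.mem_insert, Finset.mem_singleton]
    by_cases h : v = t
    · exact Or.inl h
    · exact Or.inr (hno v h)
  have h2 := Finset.card_le_card h1
  rw [Finset.card_univ, Fintype.card_fin] at h2
  have h3 : ({t, w} : Finset (Fin n)).card ≤ 2 := Finset.card_le_two
  omega

/-- a one-page graph with the last vertex `t` -/
theorem onelv {n : ℕ} (hn : 3 ≤ n) (G : SimpleGraph (Fin n)) (t : Fin n) (pos : Fin n → ℕ)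
    (hinj : ∀ u v, u ≠ t → v ≠ t → pos u = pos v → u = v)
    (hone : ∀ p q r s, p ≠ t → q ≠ t → r ≠ t → (s = t ∨ pos r < pos s) → pos p < pos q →
      pos q < pos r → ¬ (G.Adj p r ∧ G.Adj q s)) :
    ∃ (h : ℕ) (lev' pos' : Fin n → ℕ), 1 ≤ h ∧ LvU G t h lev' pos' := by
  classical
  obtain ⟨v₁, hv₁, -⟩ := two_ne hn t t
  obtain ⟨w₀, hw₀, hmin⟩ := Finset.exists_min_image (Finset.univ.filter fun w : Fin n => w ≠ t)
    pos ⟨v₁, by simp [hv₁]⟩
  have hw₀t : w₀ ≠ t := by simpa using hw₀
  obtain ⟨v₂, hv₂, hv₂'⟩ := two_ne hn t w₀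
  have l0 : ∀ w : Fin n, (if w = w₀ then 0 else 1 : ℕ) = 0 → w = w₀ := by
    intro w hw
    by_contra hne
    rw [if_neg hne] at hw
    omega
  refine ⟨1, fun w => if w = w₀ then 0 else 1, pos, le_rfl, ?_, ?_, ?_, ?_, ?_, ?_, ?_, ?_, ?_⟩
  · intro u v hu hv _ hp
    exact hinj u v hu hv hp
  · intro v _
    show (if v = w₀ then 0 else 1 : ℕ) ≤ 1
    split_ifs <;> omega
  · exact ⟨w₀, hw₀t, if_pos rfl⟩
  · exact ⟨v₂, hv₂, if_neg hv₂'⟩
  · intro u v w _ _ _ _ _ h1 h2
    omega
  · intro u v _ _ _ h1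
    left
    have h1' : (if u = w₀ then 0 else 1 : ℕ) < (if v = w₀ then 0 else 1 : ℕ) := h1
    show (if v = w₀ then 0 else 1 : ℕ) = (if u = w₀ then 0 else 1 : ℕ) + 1
    split_ifs at h1' ⊢ <;> omega
  · intro u v u' v' _ _ _ _ _ _ h1 h2 _ h4
    exfalso
    have h1' : (if v = w₀ then 0 else 1 : ℕ) = (if u = w₀ then 0 else 1 : ℕ) + 1 := h1
    have h2' : (if u' = w₀ then 0 else 1 : ℕ) = (if u = w₀ then 0 else 1 : ℕ) := h2
    have h3 : (if u = w₀ then 0 else 1 : ℕ) = 0 := by
      split_ifs at h1' ⊢ <;> omega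
    have e1 := l0 u h3
    have e2 := l0 u' (h2'.trans h3)
    rw [e1, e2] at h4
    exact lt_irrefl _ h4
  · intro u w _ h1 h2
    omega
  · intro i hi p q r s hp hq hr hpi hqi hri hs h1 h2
    refine hone p q r s hp hq hr ?_ h1 h2
    rcases hs with hs | ⟨-, hs⟩
    · exact Or.inl hs
    · exact Or.inr hs

theorem wlu {n : ℕ} (hn : 3 ≤ n) (G : SimpleGraph (Fin n)) (t : Fin n) (lev pos : Fin n → ℕ)
    (hL : Lvl G t lev pos) :
    ∃ (h : ℕ) (lev' pos' : Fin n → ℕ), 1 ≤ h ∧ LvU G t h lev' pos' := by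
  classical
  obtain ⟨v₁, hv₁, -⟩ := two_ne hn t t
  have hne : (Finset.univ.filter fun w : Fin n => w ≠ t).Nonempty := ⟨v₁, by simp [hv₁]⟩
  obtain ⟨m, hm, hmin⟩ := Finset.exists_min_image (Finset.univ.filter fun w : Fin n => w ≠ t)
    lev hne
  obtain ⟨M, hM, hmax⟩ := Finset.exists_max_image (Finset.univ.filter fun w : Fin n => w ≠ t)
    lev hne
  have hmt : m ≠ t := by simpa using hm
  have hMt : M ≠ t := by simpa using hM
  have hmin' : ∀ w, w ≠ t → lev m ≤ lev w := fun w hw => hmin w (by simp [hw])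
  have hmax' : ∀ w, w ≠ t → lev w ≤ lev M := fun w hw => hmax w (by simp [hw])
  -- no edge between two vertices of a level with a vertex between them
  have key : ∀ p q r, p ≠ t → q ≠ t → r ≠ t → lev p = lev q → lev q = lev r → pos p < pos q →
      pos q < pos r → ¬ G.Adj p r := by
    intro p q r hp hq hr h1 h2 h3 h4 hA
    rcases hL.edge p r hp hr hA (h1.trans h2).le with ⟨-, h5⟩ | h5 | ⟨-, h5⟩
    · exact (h5 q hq h1.symm).1 ⟨h3, h4⟩
    · omega
    · have h6 := h5 q hq h2
      omega
  by_cases hmM : lev m = lev M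
  · have hall : ∀ w, w ≠ t → lev w = lev m := by
      intro w hw
      have h1 := hmin' w hw
      have h2 := hmax' w hw
      omega
    refine onelv hn G t pos ?_ ?_
    · intro u v hu hv hp
      exact hL.inj u v hu hv ((hall u hu).trans (hall v hv).symm) hp
    · intro p q r s hp hq hr _ h1 h2 h3
      exact key p q r hp hq hr ((hall p hp).trans (hall q hq).symm)
        ((hall q hq).trans (hall r hr).symm) h1 h2 h3.1
  · have hlt : lev m < lev M := lt_of_le_of_ne (hmin' M hMt) hmM
    have hsub : ∀ u v, u ≠ t → v ≠ t → lev u - lev m = lev v - lev m → lev u = lev v := by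
      intro u v hu hv h1
      have h2 := hmin' u hu
      have h3 := hmin' v hv
      omega
    refine ⟨lev M - lev m, fun w => lev w - lev m, pos, by omega, ?_, ?_, ?_, ?_, ?_, ?_, ?_,
      ?_, ?_⟩
    · intro u v hu hv h1 h2
      exact hL.inj u v hu hv (hsub u v hu hv h1) h2
    · intro v hv
      have h1 := hmax' v hv
      show lev v - lev m ≤ lev M - lev m
      omega
    · exact ⟨m, hmt, Nat.sub_self _⟩
    · exact ⟨M, hMt, rfl⟩
    · intro u v w hu hv hw hA h1 h2 h3 h4 h5
      have e1 := hsub u v hu hv h1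
      have e2 := hsub w u hw hu h4
      rcases hL.edge u v hu hv hA e1.le with ⟨-, h6⟩ | h6 | ⟨h6, -⟩
      · exact (h6 w hw e2).1 h5
      · omega
      · have h7 := (h6 m hmt).1
        have h2' : 1 ≤ lev u - lev m := h2
        omega
    · intro u v hu hv hA h1
      have h1' : lev u - lev m < lev v - lev m := h1
      have a1 := hmin' u hu
      have a2 := hmin' v hv
      rcases hL.edge u v hu hv hA (by omega) with ⟨h6, -⟩ | h6 | ⟨h6, h7⟩
      · omega
      · left
        show lev v - lev m = lev u - lev m + 1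
        omega
      · right
        have h8 := (h6 m hmt).1
        refine ⟨?_, ?_, ?_⟩
        · show lev u - lev m = 0
          omega
        · intro w hw h9
          have h9' : lev w - lev m = 0 := h9
          have a3 := hmin' w hw
          exact (h6 w hw).2 (by omega)
        · intro w hw h9
          exact h7 w hw (hsub w v hw hv h9)
    · intro u v u' v' hu hv hu' hv' hA hA' h1 h2 h3 h4
      have h1' : lev v - lev m = lev u - lev m + 1 := h1
      have a1 := hmin' u hu
      have a2 := hmin' v hv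
      exact hL.mono u v u' v' hu hv hu' hv' hA hA' (by omega) (hsub u' u hu' hu h2)
        (hsub v' v hv' hv h3) h4
    · intro u w hA h1 h2 hw h3
      have hu : u ≠ t := G.ne_of_adj hA
      exact hL.last u hA w hw (hsub w u hw hu h3)
    · intro i hi p q r s hp hq hr hpi hqi hri _ h1 h2 h3
      exact key p q r hp hq hr (hsub p q hp hq (hpi.trans hqi.symm))
        (hsub q r hq hr (hqi.trans hri.symm)) h1 h2 h3.1

theorem tlu {n : ℕ} (hn : 3 ≤ n) (G : SimpleGraph (Fin n)) (c : Fin n) (X : Set (Fin n))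
    (r : Fin n → ℕ) (hT : TwoTrack G c X r) :
    ∃ (h : ℕ) (lev' pos' : Fin n → ℕ), 1 ≤ h ∧ LvU G c h lev' pos' := by
  classical
  by_cases hX : ∃ v, v ∈ X
  · by_cases hY : ∃ v, v ∉ X ∧ v ≠ c
    · obtain ⟨v₀, hv₀⟩ := hX
      obtain ⟨v₁, hv₁, hv₁'⟩ := hY
      have l0 : ∀ v : Fin n, (if v ∈ X then 0 else 1 : ℕ) = 0 → v ∈ X := by
        intro v hv
        by_contra hne
        rw [if_neg hne] at hv
        omega
      have l1 : ∀ v : Fin n, (if v ∈ X then 0 else 1 : ℕ) = 1 → v ∉ X := by
        intro v hv hne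
        rw [if_pos hne] at hv
        omega
      have hc0 : ∀ v ∈ X, v ≠ c := fun v hv e => hT.cX (e ▸ hv)
      refine ⟨1, fun v => if v ∈ X then 0 else 1, r, le_rfl, ?_, ?_, ?_, ?_, ?_, ?_, ?_, ?_, ?_⟩
      · intro u v _ _ _ hp
        exact hT.inj hp
      · intro v _
        show (if v ∈ X then 0 else 1 : ℕ) ≤ 1
        split_ifs <;> omega
      · exact ⟨v₀, hc0 v₀ hv₀, if_pos hv₀⟩
      · exact ⟨v₁, hv₁', if_neg hv₁⟩
      · intro u v w _ _ _ _ _ h1 h2
        omega
      · intro u v _ _ _ h1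
        left
        have h1' : (if u ∈ X then 0 else 1 : ℕ) < (if v ∈ X then 0 else 1 : ℕ) := h1
        show (if v ∈ X then 0 else 1 : ℕ) = (if u ∈ X then 0 else 1 : ℕ) + 1
        split_ifs at h1' ⊢ <;> omega
      · intro u v u' v' _ hv _ hv' hA hA' h1 h2 h3 h4
        have h1' : (if v ∈ X then 0 else 1 : ℕ) = (if u ∈ X then 0 else 1 : ℕ) + 1 := h1
        have h2' : (if u' ∈ X then 0 else 1 : ℕ) = (if u ∈ X then 0 else 1 : ℕ) := h2
        have h3' : (if v' ∈ X then 0 else 1 : ℕ) = (if v ∈ X then 0 else 1 : ℕ) := h3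
        have h5 : (if u ∈ X then 0 else 1 : ℕ) = 0 := by
          split_ifs at h1' ⊢ <;> omega
        have e1 := l0 u h5
        have e2 := l0 u' (h2'.trans h5)
        have e3 := l1 v (by rw [h1', h5])
        have e4 := l1 v' (by rw [h3', h1', h5])
        exact hT.xy u u' v v' e1 e2 e3 e4 hv hv' hA hA' h4
      · intro u w _ h1 h2
        omega
      · intro i hi p q s z hp hq hs hpi hqi hsi hz h1 h2
        have hlt : r s < r z := by
          rcases hz with hz | ⟨-, hz⟩
          · rw [hz]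
            exact hT.top s hs
          · exact hz
        rcases hi with hi | hi
        · subst hi
          refine hT.px p q s z (Or.inl (l0 p hpi)) (Or.inl (l0 q hqi)) (Or.inl (l0 s hsi)) ?_
            h1 h2 hlt
          rcases hz with hz | ⟨hz, -⟩
          · exact Or.inr hz
          · exact Or.inl (l0 z hz)
        · subst hi
          refine hT.py p q s z (l1 p hpi) (l1 q hqi) (l1 s hsi) ?_ h1 h2 hlt
          rcases hz with hz | ⟨hz, -⟩
          · rw [hz]
            exact hT.cX
          · exact l1 z hz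
    · have hall : ∀ v, v ∈ X ∨ v = c := by
        intro v
        by_contra hno
        rw [not_or] at hno
        exact hY ⟨v, hno.1, hno.2⟩
      refine onelv hn G c r (fun u v _ _ h => hT.inj h) ?_
      intro p q s z _ _ hs hz h1 h2
      refine hT.px p q s z (hall p) (hall q) (hall s) (hall z) h1 h2 ?_
      rcases hz with hz | hz
      · rw [hz]
        exact hT.top s hs
      · exact hz
  · have hall : ∀ v, v ∉ X := fun v hv => hX ⟨v, hv⟩
    refine onelv hn G c r (fun u v _ _ h => hT.inj h) ?_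
    intro p q s z _ _ hs hz h1 h2
    refine hT.py p q s z (hall p) (hall q) (hall s) (hall z) h1 h2 ?_
    rcases hz with hz | hz
    · rw [hz]
      exact hT.top s hs
    · exact hz

end Pool.Agent.SGL.H90
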