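import Pool.Agent.Helper90_SGL.Ends
import Pool.Agent.Helper77_SGD.BND
import Pool.Agent.Helper5_SGD.BN2

/-!
# Squad SGL, upgrade U: the end slices, without hypotheses
-/

set_option autoImplicit false

noncomputable section

namespace Pool.Agent.SGL.H90

open Pool.Agent.SGE Pool.Agent.SGP Pool.Agent.SGY Pool.Agent.SGD Pool.Agent.SGL

theorem endB_all {V : Type} [Fintype V] {a b c : V}
    {E : V → V → Prop} {F : V → V → V → Prop} {K : Set V} {C₁ C₂ : List V}
    (h : Stt a b c E F K C₁ C₂) (D : ℕ → ℕ) :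
    ∃ (x y : V → ℝ) (π : ℕ → V), EndB a c F K K.ncard D x y π :=
  endB Pool.Agent.SGD.H77.bnd Pool.Agent.SGY.H73.mayA h D

theorem endT_all {V : Type} [Fintype V] {a b c : V}
    {E : V → V → Prop} {F : V → V → V → Prop} {K : Set V} {C₁ C₂ : List V}
    (h : Stt a b c E F K C₁ C₂) (D : ℕ → ℕ) :
    ∃ (x y : V → ℝ) (π : ℕ → V),
      EndT a b F (Inn a b c E \ K) (Inn a b c E \ K).ncard D x y π :=
  endT Pool.Agent.SGD.H77.bnd Pool.Agent.SGD.H5.bn2 Pool.Agent.SGY.H73.mayA h D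

end Pool.Agent.SGL.H90

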