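import Pool.Agent.Helper90_SGL.Geo
import Pool.Agent.Helper6_SGY.MAY

/-!
# Squad SGL, upgrade U: a plan gives a good placement of the triangulated triangle
-/

set_option autoImplicit false

noncomputable section

namespace Pool.Agent.SGL.H90

open Pool.Agent.SGE Pool.Agent.SGP Pool.Agent.SGY Pool.Agent.SGD Pool.Agent.SGL

/-- the sign rules of the points -/
structure Rules {V : Type} (a : V) (s : V → ℕ) (x y : V → ℝ) (f : V → ℝ × ℝ) : Prop where
  r1 : ∀ p q r, p ≠ a → q ≠ a → r ≠ a → s p < s r → s q < s r → x p < x q →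
    0 < o (f p) (f q) (f r)
  r2 : ∀ p q r, p ≠ a → q ≠ a → r ≠ a → s p = s q → s r < s p → x p < x q →
    0 < o (f q) (f p) (f r)
  r3 : ∀ p q r, p ≠ a → q ≠ a → r ≠ a → s p = s q → s q = s r →
    o (f p) (f q) (f r) = o (pv x y p) (pv x y q) (pv x y r)
  r4 : ∀ p q, p ≠ a → q ≠ a → s p < s q → 0 < o (f a) (f q) (f p)
  r5 : ∀ p q, p ≠ a → q ≠ a → s p = s q → y p < y q → 0 < o (f a) (f q) (f p)
  r6 : ∀ p, p ≠ a → (f p).1 = x p ∧ x p < (f a).1

theorem rules {V : Type} [Finite V] (a : V) (s : V → ℕ) (x y : V → ℝ) :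
    ∃ B W : ℝ, Rules a s x y (cu a s x y B W) := by
  obtain ⟨B, W, h1, h2, h3, h4, h5, h6, h7⟩ := geo a s x y
  refine ⟨B, W, ⟨h1, h2, h3, h4, h5, ?_⟩⟩
  intro p hp
  rw [h7]
  exact h6 p hp

theorem or3 (p q r : ℝ × ℝ) : o p q r = o q r p := by unfold o; ring

theorem osw (p q r : ℝ × ℝ) : o p q r = - o q p r := by unfold o; ring

theorem osw' (p q r : ℝ × ℝ) : o p q r = - o p r q := by unfold o; ring

theorem face_ne {V : Type} [Fintype V] {a b : V} {C : List V} {E : V → V → Prop}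
    {F : V → V → V → Prop} (hN : NT a b C E F) {u v w : V} (h : F u v w) :
    (Rel E u ∧ Rel E v ∧ Rel E w) ∧ u ≠ v ∧ u ≠ w ∧ v ≠ w := by
  have h1 := hN.rot _ _ _ h
  have h2 := hN.rot _ _ _ h1
  have e1 := hN.fe _ _ _ h
  have e2 := hN.fe _ _ _ h1
  have e3 := hN.fe _ _ _ h2
  refine ⟨⟨⟨v, e1⟩, ⟨w, e2⟩, ⟨u, e3⟩⟩, ?_, ?_, ?_⟩
  · rintro rfl
    exact hN.irr _ e1
  · rintro rfl
    exact hN.irr _ e3
  · rintro rfl
    exact hN.irr _ e2

theorem planGdT {V : Type} [Fintype V] {a b c : V} {E : V → V → Prop} {F : V → V → V → Prop}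
    (hN : NT a b [a, c, b] E F) {h : ℕ} (hh : 1 ≤ h) {s : V → ℕ} {x y : V → ℝ}
    (hP : Plan a b c E F h s x y) {f : V → ℝ × ℝ} (hR : Rules a s x y f) :
    GdT a b c E F f := by
  obtain ⟨hab, hac, hbc⟩ := Pool.Agent.SGY.H6.nds hN
  obtain ⟨ra, rb, rc⟩ := Pool.Agent.SGY.H6.rels hN
  have top1 : ∀ p q r, p ∈ RR a E → q ∈ RR a E → r ∈ RR a E → p ≠ q → s p < s r → s q < s r →
      o (f p) (f q) (f r) ≠ 0 := by
    intro p q r hp hq hr hpq h1 h2
    rcases lt_or_gt_of_ne (hP.xd p hp q hq hpq) with h3 | h3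
    · exact (hR.r1 p q r hp.2 hq.2 hr.2 h1 h2 h3).ne'
    · have h4 := hR.r1 q p r hq.2 hp.2 hr.2 h2 h1 h3
      rw [osw]
      exact (neg_neg_of_pos h4).ne
  have top2 : ∀ p q r, p ∈ RR a E → q ∈ RR a E → r ∈ RR a E → p ≠ q → s p = s q → s r < s p →
      o (f p) (f q) (f r) ≠ 0 := by
    intro p q r hp hq hr hpq h1 h2
    rcases lt_or_gt_of_ne (hP.xd p hp q hq hpq) with h3 | h3
    · have h4 := hR.r2 p q r hp.2 hq.2 hr.2 h1 h2 h3
      rw [osw]
      exact (neg_neg_of_pos h4).ne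
    · exact (hR.r2 q p r hq.2 hp.2 hr.2 h1.symm (h1 ▸ h2) h3).ne'
  have gp3 : ∀ p q r, p ∈ RR a E → q ∈ RR a E → r ∈ RR a E → p ≠ q → p ≠ r → q ≠ r →
      o (f p) (f q) (f r) ≠ 0 := by
    intro p q r hp hq hr hpq hpr hqr
    rcases lt_trichotomy (s p) (s q) with h1 | h1 | h1
    · rcases lt_trichotomy (s q) (s r) with h2 | h2 | h2
      · exact top1 p q r hp hq hr hpq (h1.trans h2) h2
      · rw [or3]
        exact top2 q r p hq hr hp hqr h2 h1
      · -- `q` is alone at the top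
        rw [or3, or3]
        exact top1 r p q hr hp hq (Ne.symm hpr) h2 h1
    · rcases lt_trichotomy (s q) (s r) with h2 | h2 | h2
      · exact top1 p q r hp hq hr hpq (h1.trans_lt h2) h2
      · rw [hR.r3 p q r hp.2 hq.2 hr.2 h1 h2]
        exact hP.gp p hp q hq r hr h1 h2 hpq hpr hqr
      · exact top2 p q r hp hq hr hpq h1 (h2.trans_eq h1.symm)
    · rcases lt_trichotomy (s p) (s r) with h2 | h2 | h2
      · exact top1 p q r hp hq hr hpq h2 (h1.trans h2)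
      · rw [or3, or3]
        exact top2 r p q hr hp hq (Ne.symm hpr) h2.symm (h2 ▸ h1)
      · rw [or3]
        exact top1 q r p hq hr hp hqr h1 h2
  have oa : ∀ p q, p ∈ RR a E → q ∈ RR a E → p ≠ q → o (f a) (f p) (f q) ≠ 0 := by
    intro p q hp hq hpq
    rcases lt_trichotomy (s p) (s q) with h1 | h1 | h1
    · rw [osw']
      exact (neg_neg_of_pos (hR.r4 p q hp.2 hq.2 h1)).ne
    · rcases lt_or_gt_of_ne (hP.yd p hp q hq hpq h1) with h2 | h2
      · rw [osw']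
        exact (neg_neg_of_pos (hR.r5 p q hp.2 hq.2 h1 h2)).ne
      · exact (hR.r5 q p hq.2 hp.2 h1.symm h2).ne'
    · exact (hR.r4 q p hq.2 hp.2 h1).ne'
  have fa : ∀ u w, F u a w → 0 < o (f u) (f a) (f w) := by
    intro u w hF
    obtain ⟨⟨hu, -, hw⟩, h1, h2, h3⟩ := face_ne hN hF
    rw [or3]
    rcases hP.fa u w hF with h4 | ⟨h4, h5⟩
    · exact hR.r4 u w h1 (Ne.symm h3) h4
    · exact hR.r5 u w h1 (Ne.symm h3) h4 h5
  have f2 : ∀ u v w, F u v w → u ≠ a → v ≠ a → w ≠ a → s u < s v → s v = s w →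
      0 < o (f u) (f v) (f w) := by
    intro u v w hF hu hv hw h1 h2
    have h3 := hP.f2 u v w hF hu hv hw h1 h2
    have h4 := hR.r2 w v u hw hv hu h2.symm (h2 ▸ h1) h3
    rw [or3]
    exact h4
  have f1 : ∀ u v w, F u v w → u ≠ a → v ≠ a → w ≠ a → s u < s w → s v < s w →
      0 < o (f u) (f v) (f w) := by
    intro u v w hF hu hv hw h1 h2
    exact hR.r1 u v w hu hv hw h1 h2 (hP.f1 u v w hF hu hv hw h1 h2)
  refine ⟨?_, ?_, ?_, ?_⟩
  · intro p q r hp hq hr hpq hpr hqr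
    by_cases h1 : p = a
    · subst h1
      exact oa q r ⟨hq, Ne.symm hpq⟩ ⟨hr, Ne.symm hpr⟩ hqr
    by_cases h2 : q = a
    · subst h2
      rw [or3]
      exact oa r p ⟨hr, Ne.symm hqr⟩ ⟨hp, h1⟩ (Ne.symm hpr)
    by_cases h3 : r = a
    · subst h3
      rw [or3, or3]
      exact oa p q ⟨hp, h1⟩ ⟨hq, h2⟩ hpq
    exact gp3 p q r ⟨hp, h1⟩ ⟨hq, h2⟩ ⟨hr, h3⟩ hpq hpr hqr
  · refine hR.r4 c b (Ne.symm hac) (Ne.symm hab) ?_
    rw [hP.sc, hP.sb]
    omega
  · intro z hz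
    obtain ⟨hza, hzb, hzc, hr⟩ := hz
    have hzR : z ∈ RR a E := ⟨hr, hza⟩
    have hsl := hP.sl z hzR
    refine ⟨?_, ?_, ?_⟩
    · rcases hsl.lt_or_eq with h1 | h1
      · exact hR.r4 z b hza (Ne.symm hab) (by rw [hP.sb]; exact h1)
      · exact hR.r5 z b hza (Ne.symm hab) (by rw [hP.sb]; exact h1) (hP.by_ z hzR hzb h1)
    · rcases hsl.lt_or_eq with h1 | h1
      · rw [or3]
        exact hR.r1 c z b (Ne.symm hac) hza (Ne.symm hab) (by rw [hP.sc, hP.sb]; omega)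
          (by rw [hP.sb]; exact h1) (hP.cx z hzR hzc h1)
      · rw [or3, or3]
        exact hR.r2 b z c (Ne.symm hab) hza (Ne.symm hac) (by rw [hP.sb]; exact h1.symm)
          (by rw [hP.sc, hP.sb]; omega) (hP.bx z hzR hzb h1)
    · rw [or3]
      rcases Nat.eq_zero_or_pos (s z) with h1 | h1
      · exact hR.r5 c z (Ne.symm hac) hza (by rw [hP.sc, h1]) (hP.cy z hzR hzc h1)
      · exact hR.r4 c z (Ne.symm hac) hza (by rw [hP.sc]; exact h1)
  · intro u v w hF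
    obtain ⟨-, huv, huw, hvw⟩ := face_ne hN hF
    have hF1 := hN.rot _ _ _ hF
    have hF2 := hN.rot _ _ _ hF1
    by_cases h1 : u = a
    · subst h1
      rw [or3, or3]
      exact fa w v hF2
    by_cases h2 : v = a
    · subst h2
      exact fa u w hF
    by_cases h3 : w = a
    · subst h3
      rw [or3]
      exact fa v u hF1
    rcases lt_trichotomy (s u) (s v) with g1 | g1 | g1
    · rcases lt_trichotomy (s v) (s w) with g2 | g2 | g2
      · exact f1 u v w hF h1 h2 h3 (g1.trans g2) g2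
      · exact f2 u v w hF h1 h2 h3 g1 g2
      · rw [or3, or3]
        exact f1 w u v hF2 h3 h1 h2 g2 g1
    · rcases lt_trichotomy (s v) (s w) with g2 | g2 | g2
      · exact f1 u v w hF h1 h2 h3 (g1.trans_lt g2) g2
      · rw [hR.r3 u v w h1 h2 h3 g1 g2]
        exact hP.f3 u v w hF h1 h2 h3 g1 g2
      · rw [or3, or3]
        exact f2 w u v hF2 h3 h1 h2 (g2.trans_eq g1.symm) g1
    · rcases lt_trichotomy (s u) (s w) with g2 | g2 | g2
      · exact f1 u v w hF h1 h2 h3 g2 (g1.trans g2)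
      · rw [or3]
        exact f2 v w u hF1 h2 h3 h1 (g1.trans_eq g2) g2.symm
      · rw [or3]
        exact f1 v w u hF1 h2 h3 h1 g1 g2

end Pool.Agent.SGL.H90
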