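import Pool.Agent.SGL.StmtsU
import Pool.Agent.Helper90_SGL.PlanG
import Pool.Agent.Helper90_SGL.EndsA

/-!
# Squad SGL, upgrade U: rows PTP, ENB, ENT (no hypotheses)
-/

set_option autoImplicit false

noncomputable section

namespace Pool.Agent.SGL.H90

open Pool.Agent.SGE Pool.Agent.SGP Pool.Agent.SGY Pool.Agent.SGD Pool.Agent.SGL

theorem ptp : PtpStmt := by
  intro V _ a b c E F h s x y ρ hN hh hP hρ
  obtain ⟨hab, hac, hbc⟩ := Pool.Agent.SGY.H6.nds hN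
  obtain ⟨B, W, hR⟩ := rules a s x y
  refine ⟨B, W, planGdT hN hh hP hR, ⟨?_, ?_, ?_, ?_, ?_, ?_⟩, ?_⟩
  · intro p hp q hq r hr h1 h2 h3
    exact hR.r2 p q r hp.2 hq.2 hr.2 h1 h3 (hρ p hp q hq h2)
  · intro p hp q hq r hr h1 h2 h3
    exact hR.r1 p q r hp.2 hq.2 hr.2 h3 (h1 ▸ h3) (hρ p hp q hq h2)
  · intro p hp q hq h1
    exact hR.r4 p q hp.2 hq.2 h1
  · intro p hp q hq h1 h2
    have h3 := hP.sl q hq
    exact hR.r1 c p q (Ne.symm hac) hp.2 hq.2 (by rw [hP.sc]; omega) h2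
      (hP.cx p hp h1 (by omega))
  · intro p hp q hq h1
    rw [(hR.r6 p hp.2).1, (hR.r6 q hq.2).1]
    exact hρ p hp q hq h1
  · intro p hp
    rw [(hR.r6 p hp.2).1]
    exact (hR.r6 p hp.2).2
  · intro p hp r hr h1 h2
    rw [or3]
    exact hR.r5 p r hp.2 hr.2 h1 h2

theorem enb : EnbStmt := by
  intro V _ a b c E F K C₁ C₂ h D
  exact endB_all h D

theorem ent : EntStmt := by
  intro V _ a b c E F K C₁ C₂ h D
  exact endT_all h D

end Pool.Agent.SGL.H90
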