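import Pool.Agent.Helper2_SGL.AsmB
import Pool.Agent.Helper23_SGL.FNV
import Pool.Agent.Helper23_SGL.NYE
import Pool.Agent.Helper23_SGL.NYV
import Pool.Agent.Helper79_SGL.XOU
import Pool.Agent.Helper12_SGL.BCI
import Pool.Agent.Helper89_SGL.MSI
import Pool.Agent.Helper66_SGL.PLN
import Pool.Agent.Helper85_SGL.EBL
import Pool.Agent.Helper30_SGL.EBH
import Pool.Agent.Helper72_SGL.NYA
import Pool.Agent.Helper50_SGL.NYB
import Pool.Agent.Helper21_SGL.NYC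
import Pool.Agent.Helper36_SGL.NYD
import Pool.Agent.Helper84_SGL.NXU
import Pool.Agent.Helper16_SGL.ARL
import Pool.Agent.Helper20_SGL.ARH
import Pool.Agent.Helper10_SGL.PSI
import Pool.Agent.Helper17_SGL.SIU
import Pool.Agent.Helper35_SGL.PIG
import Pool.Agent.Helper90_SGL.PTP
import Pool.Agent.Helper90_SGL.Incl

/-!
# Squad SGL: assembly of theorem U
-/

set_option autoImplicit false

noncomputable section

namespace Pool.Agent.SGL.H90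

open Pool.Agent.SGE Pool.Agent.SGP Pool.Agent.SGY Pool.Agent.SGD Pool.Agent.SGL

theorem nyv_ : NyvStmt :=
  Pool.Agent.SGL.H23.nyv
    (Pool.Agent.SGL.H95.nxv Pool.Agent.SGL.H70.nxa Pool.Agent.SGL.H75.nxb Pool.Agent.SGL.H29.nxc)
    Pool.Agent.SGL.H72.nya Pool.Agent.SGL.H50.nyb Pool.Agent.SGL.H21.nyc Pool.Agent.SGL.H36.nyd
    Pool.Agent.SGL.H23.nye

/-- the main theorem on the level of near-triangulations -/
theorem fnv_all (n : ℕ) (G₁ G₂ : SimpleGraph (Fin n)) (a b c : Fin n)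
    (E : Fin n ⊕ Fin 3 → Fin n ⊕ Fin 3 → Prop)
    (F : Fin n ⊕ Fin 3 → Fin n ⊕ Fin 3 → Fin n ⊕ Fin 3 → Prop)
    (hNT : NT (Sum.inl a) (Sum.inl b) [Sum.inl a, Sum.inl c, Sum.inl b] E F)
    (hiso : ∀ i x, ¬ E (Sum.inr i) x ∧ ¬ E x (Sum.inr i)) (hRel : ∀ v, Rel E (Sum.inl v))
    (hNS : NoSep (Sum.inl a) E)
    (hle : ∀ u v, G₁.Adj u v → E (Sum.inl u) (Sum.inl v))
    (t : Fin n) (h : ℕ) (lev pos : Fin n → ℕ) (hh : 1 ≤ h) (hL : LvU G₂ t h lev pos) :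
    ∃ P : Finset (ℝ × ℝ), P.card = n ∧ (∃ f, Draw G₁ f ∧ ∀ u, f u ∈ P) ∧
      ∃ f, Draw G₂ f ∧ ∀ u, f u ∈ P :=
  Pool.Agent.SGL.H23.fnv Pool.Agent.SGL.H2.runB Pool.Agent.SGL.H2.rptB
    (Pool.Agent.SGL.H79.xou Pool.Agent.SGL.H34.xsl) enb ent
    (Pool.Agent.SGL.H12.bci Pool.Agent.SGD.H77.bnd Pool.Agent.SGD.H5.bn2)
    (Pool.Agent.SGL.H66.pln Pool.Agent.SGD.H77.bnd Pool.Agent.SGL.H89.msi) ptp
    Pool.Agent.SGL.H85.ebl Pool.Agent.SGL.H30.ebh (Pool.Agent.SGL.H84.nxu nyv_)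
    (Pool.Agent.SGL.H16.arl Pool.Agent.SGD.H66.dp2) (Pool.Agent.SGL.H20.arh Pool.Agent.SGD.H66.dp2)
    Pool.Agent.SGL.H10.psi Pool.Agent.SGL.H17.siu Pool.Agent.SGL.H49.sig Pool.Agent.SGL.H66.mat
    Pool.Agent.SGY.H95.fpl (Pool.Agent.SGP.H19.drw Pool.Agent.SGE.H99.seg) Pool.Agent.SGD.H70.gnz
    n G₁ G₂ a b c E F hNT hiso hRel hNS hle t h lev pos hh hL

/-- theorem U -/
theorem fnu_all (n : ℕ) (G₁ G₂ T : SimpleGraph (Fin n)) (a : Fin n) (hT : MaxPl T) (hH : Hit T a)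
    (hG : G₁ ≤ T) (t : Fin n) (h : ℕ) (lev pos : Fin n → ℕ) (hh : 1 ≤ h)
    (hL : LvU G₂ t h lev pos) :
    ∃ P : Finset (ℝ × ℝ), P.card = n ∧ (∃ f, Draw G₁ f ∧ ∀ u, f u ∈ P) ∧
      ∃ f, Draw G₂ f ∧ ∀ u, f u ∈ P := by
  have hn : 3 ≤ n := by
    obtain ⟨u, hu, hu0⟩ := hL.ne0
    obtain ⟨w, hw, hwh⟩ := hL.neh
    have huw : u ≠ w := by
      rintro rfl
      omega
    have h1 : ({t, u, w} : Finset (Fin n)).card = 3 := by
      rw [Finset.card_eq_three]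
      exact ⟨t, u, w, hu.symm, hw.symm, huw, rfl⟩
    have h2 := Finset.card_le_univ ({t, u, w} : Finset (Fin n))
    rw [h1, Fintype.card_fin] at h2
    exact h2
  obtain ⟨b, c, E, F, hNT, hE, hiso, hRel, hNS⟩ := Pool.Agent.SGL.H2.rlg T a hn hT hH
  exact fnv_all n G₁ G₂ a b c E F hNT hiso hRel hNS (fun u v huv => (hE u v).2 (hG huv)) t h lev
    pos hh hL

/-- every weakly leveled planar graph on at least three vertices is in the class -/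
theorem wlev_class {n : ℕ} (hn : 3 ≤ n) (G : SimpleGraph (Fin n)) (lev pos : Fin n → ℕ)
    (hL : WLev G lev pos) : ∃ (t : Fin n) (h : ℕ) (lev' pos' : Fin n → ℕ), 1 ≤ h ∧
      LvU G t h lev' pos' := by
  obtain ⟨t, ht⟩ := Pool.Agent.SGL.H35.pig G lev pos (by omega) hL
  exact ⟨t, wlu hn G t lev pos ht⟩

end Pool.Agent.SGL.H90
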