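import Pool.Agent.SGL.StmtsA

/-!
# Squad SGL, row FLB: the cyclic lists after a flip
-/

set_option autoImplicit false

noncomputable section

namespace Pool.Agent.SGL.H90

open Pool.Agent.SGE Pool.Agent.SGP Pool.Agent.SGY Pool.Agent.SGD Pool.Agent.SGL

theorem chain_mem {V : Type} {R S : V → V → Prop} : ∀ L : List V, L.IsChain R →
    (∀ s ∈ L, ∀ t ∈ L, R s t → S s t) → L.IsChain S := by
  intro L
  induction L with
  | nil => intro _ _; exact List.isChain_nil
  | cons a L ih =>
    cases L with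
    | nil => intro _ _; exact List.isChain_singleton _
    | cons b L =>
      intro h1 h2
      rw [List.isChain_cons_cons] at h1 ⊢
      refine ⟨h2 a (by simp) b (by simp) h1.1, ih h1.2 ?_⟩
      intro s hs t ht
      exact h2 s (List.mem_cons_of_mem _ hs) t (List.mem_cons_of_mem _ ht)

theorem chain_next {V : Type} {R S : V → V → Prop} {P : V → Prop} : ∀ (L : List V) (a : V),
    (a :: L).IsChain R → (∀ t ∈ L, P t) → (∀ s t, R s t → P t → S s t) →
    (a :: L).IsChain S := by
  intro L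
  induction L with
  | nil => intro a _ _ _; exact List.isChain_singleton _
  | cons b L ih =>
    intro a h1 h2 h3
    rw [List.isChain_cons_cons] at h1 ⊢
    exact ⟨h3 a b h1.1 (h2 b (by simp)),
      ih b h1.2 (fun t ht => h2 t (List.mem_cons_of_mem _ ht)) h3⟩

section

variable {V : Type} [Fintype V] {E : V → V → Prop} {Φ : V → V → V → Prop} {x y u v : V}

omit [Fintype V] in
theorem isE_comm (p q : V) : isE y x p q ↔ isE x y p q := Or.comm

omit [Fintype V] in
theorem flE_symm (p q : V) : flE E y x v u p q ↔ flE E x y u v p q := by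
  unfold flE
  rw [isE_comm (x := x) (y := y), isE_comm (x := u) (y := v)]

omit [Fintype V] in
theorem flF_symm (p q r : V) : flF Φ y x v u p q r ↔ flF Φ x y u v p q r := by
  show ((Φ p q r ∧ ¬ isE y x p q ∧ ¬ isE y x q r ∧ ¬ isE y x r p) ∨ _) ∨ _ ↔
    ((Φ p q r ∧ ¬ isE x y p q ∧ ¬ isE x y q r ∧ ¬ isE x y r p) ∨ _) ∨ _
  rw [isE_comm (x := x) (y := y), isE_comm (x := x) (y := y), isE_comm (x := x) (y := y)]
  exact or_right_comm

omit [Fintype V] in
theorem cyc_congr {E' : V → V → Prop} {Φ' : V → V → V → Prop} (hE : ∀ p q, E p q ↔ E' p q)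
    (hF : ∀ p q r, Φ p q r ↔ Φ' p q r) {z w : V} (h : Cyc E Φ z w) : Cyc E' Φ' z w := by
  obtain ⟨l, h1, h2, h3⟩ := h
  refine ⟨l, chain_mem _ h1 (fun s _ t _ hh => (hF z s t).1 hh), h2, ?_⟩
  intro q
  rw [← hE]
  exact h3 q

theorem flb_x (h : Sph E Φ) (h1 : Φ x y u) (h2 : Φ y x v) (huv : u ≠ v) :
    Cyc (flE E x y u v) (flF Φ x y u v) x u := by
  have exy := h.fe _ _ _ h1
  have eyu := h.fe _ _ _ (h.rot _ _ _ h1)
  have eux := h.fe _ _ _ (h.rot _ _ _ (h.rot _ _ _ h1))
  have exv := h.fe _ _ _ (h.rot _ _ _ h2)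
  have evy := h.fe _ _ _ (h.rot _ _ _ (h.rot _ _ _ h2))
  have hxy : x ≠ y := fun e => h.irr x (by rw [← e] at exy; exact exy)
  have hyu : y ≠ u := fun e => h.irr y (by rw [← e] at eyu; exact eyu)
  have hux : u ≠ x := fun e => h.irr x (by rw [e] at eux; exact eux)
  have hxv : x ≠ v := fun e => h.irr x (by rw [← e] at exv; exact exv)
  have hvy : v ≠ y := fun e => h.irr y (by rw [e] at evy; exact evy)
  obtain ⟨l, c1, c2, c3⟩ := h.cyc x y exy
  -- the last element
  have hlast : ∃ m', l = m' ++ [v] := by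
    rcases List.eq_nil_or_concat l with hl | ⟨m', s, hl⟩
    · exfalso
      rw [hl] at c1
      rw [List.nil_append, List.isChain_cons_cons] at c1
      exact h.irr y (h.fe _ _ _ (h.rot _ _ _ c1.1))
    · refine ⟨m', ?_⟩
      rw [List.concat_eq_append] at hl
      rw [hl] at c1 ⊢
      have c4 : ((y :: m') ++ ([s] ++ [y])).IsChain (Φ x) := by
        have e : y :: (m' ++ [s] ++ [y]) = (y :: m') ++ ([s] ++ [y]) := by simp
        rw [← e]
        exact c1
      have c5 : ([s] ++ [y]).IsChain (Φ x) := (List.isChain_append.1 c4).2.1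
      have c6 : Φ x s y := by
        have e : [s] ++ [y] = s :: y :: [] := rfl
        rw [e, List.isChain_cons_cons] at c5
        exact c5.1
      have c7 : Φ y x s := h.rot _ _ _ (h.rot _ _ _ c6)
      rw [h.fn _ _ _ _ c7 h2]
  obtain ⟨m', hm'⟩ := hlast
  rw [hm'] at c1 c2 c3
  -- the first element
  have hfirst : ∃ m, m' = u :: m := by
    cases m' with
    | nil =>
      exfalso
      rw [List.nil_append, List.singleton_append, List.isChain_cons_cons] at c1
      exact huv (h.fn _ _ _ _ h1 c1.1)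
    | cons s m =>
      refine ⟨m, ?_⟩
      rw [List.cons_append, List.cons_append, List.isChain_cons_cons] at c1
      rw [h.fn _ _ _ _ c1.1 h1]
  obtain ⟨m, hm⟩ := hfirst
  rw [hm] at c1 c2 c3
  have c8 : ((u :: (m ++ [v])) ++ [y]).IsChain (Φ x) := by
    have e : y :: (u :: m ++ [v] ++ [y]) = y :: u :: (m ++ [v] ++ [y]) := by simp
    rw [e, List.isChain_cons_cons] at c1
    exact c1.2
  have c9 : (u :: (m ++ [v])).IsChain (Φ x) := (List.isChain_append.1 c8).1
  rw [List.cons_append, List.nodup_cons] at c2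
  obtain ⟨c10, c11⟩ := c2
  have hny : ∀ s ∈ u :: (m ++ [v]), s ≠ y := fun s hs e => c10 (e ▸ hs)
  have c12 : (u :: (m ++ [v])).IsChain (flF Φ x y u v x) := by
    refine chain_mem _ c9 ?_
    intro s hs t ht hst
    refine Or.inl (Or.inl ⟨hst, ?_, ?_, ?_⟩)
    · rintro (⟨-, e⟩ | ⟨e, -⟩)
      · exact hny s hs e
      · exact hxy e
    · rintro (⟨-, e⟩ | ⟨e, -⟩)
      · exact hny t ht e
      · exact hny s hs e
    · rintro (⟨-, e⟩ | ⟨e, -⟩)
      · exact hxy e
      · exact hny t ht e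
  refine ⟨m ++ [v], ?_, c11, ?_⟩
  · have e : u :: (m ++ [v] ++ [u]) = (u :: (m ++ [v])) ++ [u] := by simp
    rw [e, List.isChain_append]
    refine ⟨c12, List.isChain_singleton _, ?_⟩
    intro s hs t ht
    have hs' : s = v := by
      have e2 : u :: (m ++ [v]) = (u :: m) ++ [v] := by simp
      rw [e2, List.getLast?_append] at hs
      simpa using hs.symm
    have ht' : t = u := by simpa using ht.symm
    rw [hs', ht']
    exact Or.inr (Or.inr (Or.inl ⟨rfl, rfl, rfl⟩))
  · intro q
    constructor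
    · rintro (⟨hq, hn⟩ | hq)
      · have h3 := (c3 q).1 hq
        rw [List.mem_cons] at h3
        rcases h3 with h3 | h3
        · exact absurd (Or.inl ⟨rfl, h3⟩) hn
        · rw [List.cons_append] at h3
          exact h3
      · rcases hq with ⟨e, -⟩ | ⟨e, -⟩
        · exact absurd e.symm hux
        · exact absurd e hxv
    · intro hq
      refine Or.inl ⟨(c3 q).2 ?_, ?_⟩
      · rw [List.mem_cons]
        right
        rw [List.cons_append]
        exact hq
      · rintro (⟨-, e⟩ | ⟨e, -⟩)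
        · exact hny q hq e
        · exact hxy e

theorem flb_u (h : Sph E Φ) (h1 : Φ x y u) (h2 : Φ y x v) (huv : u ≠ v) (hE : ¬ E u v) :
    Cyc (flE E x y u v) (flF Φ x y u v) u x := by
  have exy := h.fe _ _ _ h1
  have eyu := h.fe _ _ _ (h.rot _ _ _ h1)
  have eux := h.fe _ _ _ (h.rot _ _ _ (h.rot _ _ _ h1))
  have exv := h.fe _ _ _ (h.rot _ _ _ h2)
  have evy := h.fe _ _ _ (h.rot _ _ _ (h.rot _ _ _ h2))
  have hxy : x ≠ y := fun e => h.irr x (by rw [← e] at exy; exact exy)
  have hyu : y ≠ u := fun e => h.irr y (by rw [← e] at eyu; exact eyu)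
  have hux : u ≠ x := fun e => h.irr x (by rw [e] at eux; exact eux)
  have hxv : x ≠ v := fun e => h.irr x (by rw [← e] at exv; exact exv)
  have hvy : v ≠ y := fun e => h.irr y (by rw [e] at evy; exact evy)
  have h3 : Φ u x y := h.rot _ _ _ (h.rot _ _ _ h1)
  obtain ⟨l, c1, c2, c3⟩ := h.cyc u x eux
  have hfirst : ∃ l', l = y :: l' := by
    cases l with
    | nil =>
      exfalso
      rw [List.nil_append, List.isChain_cons_cons] at c1
      exact h.irr x (h.fe _ _ _ (h.rot _ _ _ c1.1))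
    | cons s l' =>
      refine ⟨l', ?_⟩
      rw [List.cons_append, List.isChain_cons_cons] at c1
      rw [h.fn _ _ _ _ c1.1 h3]
  obtain ⟨l', hl'⟩ := hfirst
  rw [hl'] at c1 c2 c3
  rw [List.cons_append, List.isChain_cons_cons] at c1
  have hnd := c2
  rw [List.nodup_cons, List.nodup_cons] at c2
  obtain ⟨d1, d2, d3⟩ := c2
  have hxl : x ∉ l' := fun hh => d1 (List.mem_cons_of_mem _ hh)
  have hvn : v ∉ x :: y :: l' := fun hh => hE ((c3 v).2 hh)
  have c4 : (y :: (l' ++ [x])).IsChain (flF Φ x y u v u) := by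
    refine chain_next (P := fun t => t ≠ y) _ _ c1.2 ?_ ?_
    · intro t ht e
      rw [e, List.mem_append] at ht
      rcases ht with ht | ht
      · exact d2 ht
      · rw [List.mem_singleton] at ht
        exact hxy ht.symm
    · intro s t hst hty
      refine Or.inl (Or.inl ⟨hst, ?_, ?_, ?_⟩)
      · rintro (⟨e, -⟩ | ⟨e, -⟩)
        · exact hux e
        · exact hyu e.symm
      · rintro (⟨-, e⟩ | ⟨e, e'⟩)
        · exact hty e
        · rw [e, e'] at hst
          exact huv (h.fn _ _ _ _ (h.rot _ _ _ hst) h2)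
      · rintro (⟨-, e⟩ | ⟨-, e⟩)
        · exact hyu e.symm
        · exact hux e
  refine ⟨v :: y :: l', ?_, ?_, ?_⟩
  · rw [List.cons_append, List.cons_append, List.isChain_cons_cons, List.isChain_cons_cons]
    exact ⟨Or.inr (Or.inl ⟨rfl, rfl, rfl⟩),
      Or.inl (Or.inr (Or.inr (Or.inr ⟨rfl, rfl, rfl⟩))), c4⟩
  · rw [List.nodup_cons, List.nodup_cons]
    refine ⟨?_, fun hh => hvn (List.mem_cons_of_mem _ hh), ?_⟩
    · rw [List.mem_cons]
      rintro (e | hh)
      · exact hxv e
      · exact d1 hh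
    · rw [List.nodup_cons]
      exact ⟨d2, d3⟩
  · intro q
    constructor
    · rintro (⟨hq, -⟩ | hq)
      · have h4 := (c3 q).1 hq
        rw [List.mem_cons] at h4 ⊢
        rcases h4 with h4 | h4
        · exact Or.inl h4
        · exact Or.inr (List.mem_cons_of_mem _ h4)
      · rcases hq with ⟨-, e⟩ | ⟨e, -⟩
        · rw [e]
          exact List.mem_cons_of_mem _ (by simp)
        · exact absurd e huv
    · intro hq
      rw [List.mem_cons, List.mem_cons] at hq
      have hisn : ¬ isE x y u q := by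
        rintro (⟨e, -⟩ | ⟨e, -⟩)
        · exact hux e
        · exact hyu e.symm
      rcases hq with hq | hq | hq
      · refine Or.inl ⟨(c3 q).2 ?_, hisn⟩
        rw [hq]
        simp
      · exact Or.inr (Or.inl ⟨rfl, hq⟩)
      · exact Or.inl ⟨(c3 q).2 (List.mem_cons_of_mem _ hq), hisn⟩

end

theorem flb (roc : RocStmt) : FlbStmt := by
  intro V _ E Φ x y u v h h1 h2 huv hE p q hpq
  have exy := h.fe _ _ _ h1
  have hE' : ¬ E v u := fun hh => hE (h.sym _ _ hh)
  by_cases hx : p = x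
  · subst hx
    exact roc (flb_x h h1 h2 huv) hpq
  by_cases hy : p = y
  · subst hy
    exact roc (cyc_congr flE_symm flF_symm (flb_x h h2 h1 huv.symm)) hpq
  by_cases hu : p = u
  · subst hu
    exact roc (flb_u h h1 h2 huv hE) hpq
  by_cases hv : p = v
  · subst hv
    exact roc (cyc_congr flE_symm flF_symm (flb_u h h2 h1 huv.symm hE')) hpq
  have hiff : ∀ q', flE E x y u v p q' ↔ E p q' := by
    intro q'
    constructor
    · rintro (⟨h3, -⟩ | ⟨e, -⟩ | ⟨e, -⟩)
      · exact h3
      · exact absurd e hu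
      · exact absurd e hv
    · intro h3
      refine Or.inl ⟨h3, ?_⟩
      rintro (⟨e, -⟩ | ⟨e, -⟩)
      · exact hx e
      · exact hy e
  obtain ⟨l, c1, c2, c3⟩ := h.cyc p q ((hiff q).1 hpq)
  refine ⟨l, ?_, c2, fun q' => (hiff q').trans (c3 q')⟩
  refine chain_mem _ c1 ?_
  intro s _ t _ hst
  refine Or.inl (Or.inl ⟨hst, ?_, ?_, ?_⟩)
  · rintro (⟨e, -⟩ | ⟨e, -⟩)
    · exact hx e
    · exact hy e
  · rintro (⟨e, e'⟩ | ⟨e, e'⟩)
    · rw [e, e'] at hst
      exact hu (h.fn _ _ _ _ (h.rot _ _ _ hst) h1)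
    · rw [e, e'] at hst
      exact hv (h.fn _ _ _ _ (h.rot _ _ _ hst) h2)
  · rintro (⟨-, e⟩ | ⟨-, e⟩)
    · exact hy e
    · exact hx e

end Pool.Agent.SGL.H90
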