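import Pool.Agent.SGL.StmtsA

/-!
# Squad SGL, rows FLN and FLT: non-facial triangles and flips
-/

set_option autoImplicit false

noncomputable section

namespace Pool.Agent.SGL.H90

open Pool.Agent.SGE Pool.Agent.SGP Pool.Agent.SGY Pool.Agent.SGD Pool.Agent.SGL

section

variable {V : Type} {E : V → V → Prop} {Φ : V → V → V → Prop} {x y u v : V}

theorem isE_sw {p q : V} (h : isE x y p q) : isE x y q p := by
  rcases h with ⟨h1, h2⟩ | ⟨h1, h2⟩
  · exact Or.inr ⟨h2, h1⟩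
  · exact Or.inl ⟨h2, h1⟩

/-- the new faces contain `u` and `v` as neighbouring vertices -/
theorem new_face {p q r : V} (h : flF Φ x y u v p q r) :
    Φ p q r ∨ isE u v p q ∨ isE u v q r ∨ isE u v r p := by
  rcases h with (h | ⟨h1, h2, h3⟩ | ⟨h1, h2, h3⟩ | ⟨h1, h2, h3⟩) |
    ⟨h1, h2, h3⟩ | ⟨h1, h2, h3⟩ | ⟨h1, h2, h3⟩
  · exact Or.inl h.1
  · exact Or.inr (Or.inr (Or.inr (Or.inl ⟨h3, h1⟩)))
  · exact Or.inr (Or.inr (Or.inl (Or.inl ⟨h2, h3⟩)))
  · exact Or.inr (Or.inl (Or.inl ⟨h1, h2⟩))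
  · exact Or.inr (Or.inr (Or.inr (Or.inr ⟨h3, h1⟩)))
  · exact Or.inr (Or.inr (Or.inl (Or.inr ⟨h2, h3⟩)))
  · exact Or.inr (Or.inl (Or.inr ⟨h1, h2⟩))

end

theorem fln : FlnStmt := by
  intro V _ E Φ x y u v h h1 h2 huv hE
  have exy := h.fe _ _ _ h1
  have eyu := h.fe _ _ _ (h.rot _ _ _ h1)
  have eux := h.fe _ _ _ (h.rot _ _ _ (h.rot _ _ _ h1))
  have exv := h.fe _ _ _ (h.rot _ _ _ h2)
  have evy := h.fe _ _ _ (h.rot _ _ _ (h.rot _ _ _ h2))
  have hyu : y ≠ u := fun e => h.irr y (by rw [← e] at eyu; exact eyu)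
  have hux : u ≠ x := fun e => h.irr x (by rw [e] at eux; exact eux)
  have hxv : x ≠ v := fun e => h.irr x (by rw [← e] at exv; exact exv)
  have hvy : v ≠ y := fun e => h.irr y (by rw [e] at evy; exact evy)
  have hE' : ¬ E v u := fun hh => hE (h.sym _ _ hh)
  have noE : ∀ p q, isE u v p q → ¬ E p q := by
    rintro p q (⟨e1, e2⟩ | ⟨e1, e2⟩) hh
    · rw [e1, e2] at hh
      exact hE hh
    · rw [e1, e2] at hh
      exact hE' hh
  constructor
  · intro p q r hN hno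
    obtain ⟨n1, n2, n3, n4, n5⟩ := hN
    have a1 : ¬ isE x y p q := by
      rintro (⟨e1, e2⟩ | ⟨e1, e2⟩)
      · exact hno ⟨Or.inl e1.symm, Or.inr (Or.inl e2.symm)⟩
      · exact hno ⟨Or.inr (Or.inl e2.symm), Or.inl e1.symm⟩
    have a2 : ¬ isE x y q r := by
      rintro (⟨e1, e2⟩ | ⟨e1, e2⟩)
      · exact hno ⟨Or.inr (Or.inl e1.symm), Or.inr (Or.inr e2.symm)⟩
      · exact hno ⟨Or.inr (Or.inr e2.symm), Or.inr (Or.inl e1.symm)⟩
    have a3 : ¬ isE x y r p := by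
      rintro (⟨e1, e2⟩ | ⟨e1, e2⟩)
      · exact hno ⟨Or.inr (Or.inr e1.symm), Or.inl e2.symm⟩
      · exact hno ⟨Or.inl e2.symm, Or.inr (Or.inr e1.symm)⟩
    refine ⟨Or.inl ⟨n1, a1⟩, Or.inl ⟨n2, a2⟩, Or.inl ⟨n3, a3⟩, ?_, ?_⟩
    · intro hh
      rcases new_face hh with h3 | h3 | h3 | h3
      · exact n4 h3
      · exact noE _ _ h3 n1
      · exact noE _ _ h3 n2
      · exact noE _ _ h3 n3
    · intro hh
      rcases new_face hh with h3 | h3 | h3 | h3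
      · exact n5 h3
      · exact noE _ _ h3 (h.sym _ _ n1)
      · exact noE _ _ h3 (h.sym _ _ n3)
      · exact noE _ _ h3 (h.sym _ _ n2)
  · intro z hzx hzy ezu ezv
    refine ⟨Or.inr (Or.inl ⟨rfl, rfl⟩), Or.inl ⟨h.sym _ _ ezv, ?_⟩, Or.inl ⟨ezu, ?_⟩, ?_, ?_⟩
    · rintro (⟨-, e⟩ | ⟨-, e⟩)
      · exact hzy e
      · exact hzx e
    · rintro (⟨e, -⟩ | ⟨e, -⟩)
      · exact hzx e
      · exact hzy e
    · rintro ((hh | ⟨e1, e2, e3⟩ | ⟨e1, e2, e3⟩ | ⟨e1, e2, e3⟩) |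
        ⟨e1, e2, e3⟩ | ⟨e1, e2, e3⟩ | ⟨e1, e2, e3⟩)
      · exact hE (h.fe _ _ _ hh.1)
      · exact huv e1
      · exact hyu e1.symm
      · exact hzy e3
      · exact hxv e2.symm
      · exact hux e1
      · exact huv e1
    · rintro ((hh | ⟨e1, e2, e3⟩ | ⟨e1, e2, e3⟩ | ⟨e1, e2, e3⟩) |
        ⟨e1, e2, e3⟩ | ⟨e1, e2, e3⟩ | ⟨e1, e2, e3⟩)
      · exact hE' (h.fe _ _ _ hh.1)
      · exact hyu e2.symm
      · exact hvy e1
      · exact huv e1.symm
      · exact huv e1.symm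
      · exact hxv e1.symm
      · exact hzx e3

theorem flF_rot {V : Type} [Fintype V] {E : V → V → Prop} {Φ : V → V → V → Prop} {x y u v : V}
    (h : Sph E Φ) {p q r : V} (hh : flF Φ x y u v p q r) : flF Φ x y u v q r p := by
  rcases hh with (hh | ⟨e1, e2, e3⟩ | ⟨e1, e2, e3⟩ | ⟨e1, e2, e3⟩) |
    ⟨e1, e2, e3⟩ | ⟨e1, e2, e3⟩ | ⟨e1, e2, e3⟩
  · exact Or.inl (Or.inl ⟨h.rot _ _ _ hh.1, hh.2.2.1, hh.2.2.2, hh.2.1⟩)
  · exact Or.inl (Or.inr (Or.inr (Or.inl ⟨e2, e3, e1⟩)))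
  · exact Or.inl (Or.inr (Or.inr (Or.inr ⟨e2, e3, e1⟩)))
  · exact Or.inl (Or.inr (Or.inl ⟨e2, e3, e1⟩))
  · exact Or.inr (Or.inr (Or.inl ⟨e2, e3, e1⟩))
  · exact Or.inr (Or.inr (Or.inr ⟨e2, e3, e1⟩))
  · exact Or.inr (Or.inl ⟨e2, e3, e1⟩)

theorem flt : FltStmt := by
  intro V _ E Φ x y u v h h1 h2 huv hE
  have exy := h.fe _ _ _ h1
  have hxy : x ≠ y := fun e => h.irr x (by rw [← e] at exy; exact exy)
  -- the case of the edge `u v` at the first place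
  have key : ∀ p q r, flE E x y u v q r → flE E x y u v r p → ¬ flF Φ x y u v p q r →
      ¬ flF Φ x y u v q p r → isE u v p q →
      ∃ w, w ≠ x ∧ w ≠ y ∧ E w u ∧ E w v ∧ ({p, q, r} : Set V) = {u, v, w} := by
    rintro p q r f1 f2 g1 g2 (⟨e1, e2⟩ | ⟨e1, e2⟩)
    · subst e1
      subst e2
      have hru : r ≠ p := by
        rintro rfl
        rcases f2 with ⟨f3, -⟩ | ⟨-, f3⟩ | ⟨f3, -⟩
        · exact h.irr _ f3
        · exact huv f3
        · exact huv f3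
      have hrv : r ≠ q := by
        rintro rfl
        rcases f1 with ⟨f3, -⟩ | ⟨f3, -⟩ | ⟨-, f3⟩
        · exact h.irr _ f3
        · exact huv f3.symm
        · exact huv f3.symm
      refine ⟨r, ?_, ?_, ?_, ?_, rfl⟩
      · rintro rfl
        exact g2 (Or.inr (Or.inr (Or.inr ⟨rfl, rfl, rfl⟩)))
      · rintro rfl
        exact g1 (Or.inl (Or.inr (Or.inr (Or.inr ⟨rfl, rfl, rfl⟩))))
      · rcases f2 with ⟨f3, -⟩ | ⟨f3, -⟩ | ⟨f3, -⟩
        · exact f3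
        · exact absurd f3 hru
        · exact absurd f3 hrv
      · rcases f1 with ⟨f3, -⟩ | ⟨-, f3⟩ | ⟨-, f3⟩
        · exact h.sym _ _ f3
        · exact absurd f3 hrv
        · exact absurd f3 hru
    · subst e1
      subst e2
      have hrv : r ≠ p := by
        rintro rfl
        rcases f2 with ⟨f3, -⟩ | ⟨f3, -⟩ | ⟨-, f3⟩
        · exact h.irr _ f3
        · exact huv f3.symm
        · exact huv f3.symm
      have hru : r ≠ q := by
        rintro rfl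
        rcases f1 with ⟨f3, -⟩ | ⟨-, f3⟩ | ⟨f3, -⟩
        · exact h.irr _ f3
        · exact huv f3
        · exact huv f3
      refine ⟨r, ?_, ?_, ?_, ?_, ?_⟩
      · rintro rfl
        exact g1 (Or.inr (Or.inr (Or.inr ⟨rfl, rfl, rfl⟩)))
      · rintro rfl
        exact g2 (Or.inl (Or.inr (Or.inr (Or.inr ⟨rfl, rfl, rfl⟩))))
      · rcases f1 with ⟨f3, -⟩ | ⟨-, f3⟩ | ⟨-, f3⟩
        · exact h.sym _ _ f3
        · exact absurd f3 hrv
        · exact absurd f3 hru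
      · rcases f2 with ⟨f3, -⟩ | ⟨f3, -⟩ | ⟨f3, -⟩
        · exact f3
        · exact absurd f3 hru
        · exact absurd f3 hrv
      · exact Set.insert_comm _ _ _
  intro p q r hN
  obtain ⟨n1, n2, n3, n4, n5⟩ := hN
  by_cases c1 : isE u v p q
  · exact Or.inr (key p q r n2 n3 n4 n5 c1)
  by_cases c2 : isE u v q r
  · right
    have m4 : ¬ flF Φ x y u v q r p := fun hh => n4 (flF_rot h (flF_rot h hh))
    have m5 : ¬ flF Φ x y u v r q p := fun hh => n5 (flF_rot h hh)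
    obtain ⟨w, w1, w2, w3, w4, w5⟩ := key q r p n3 n1 m4 m5 c2
    refine ⟨w, w1, w2, w3, w4, ?_⟩
    rw [← w5]
    ext s
    simp only [Set.mem_insert_iff, Set.mem_singleton_iff]
    constructor
    · rintro (hs | hs | hs)
      · exact Or.inr (Or.inr hs)
      · exact Or.inl hs
      · exact Or.inr (Or.inl hs)
    · rintro (hs | hs | hs)
      · exact Or.inr (Or.inl hs)
      · exact Or.inr (Or.inr hs)
      · exact Or.inl hs
  by_cases c3 : isE u v r p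
  · right
    have m4 : ¬ flF Φ x y u v r p q := fun hh => n4 (flF_rot h hh)
    have m5 : ¬ flF Φ x y u v p r q := fun hh => n5 (flF_rot h (flF_rot h hh))
    obtain ⟨w, w1, w2, w3, w4, w5⟩ := key r p q n1 n2 m4 m5 c3
    refine ⟨w, w1, w2, w3, w4, ?_⟩
    rw [← w5]
    ext s
    simp only [Set.mem_insert_iff, Set.mem_singleton_iff]
    constructor
    · rintro (hs | hs | hs)
      · exact Or.inr (Or.inl hs)
      · exact Or.inr (Or.inr hs)
      · exact Or.inl hs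
    · rintro (hs | hs | hs)
      · exact Or.inr (Or.inr hs)
      · exact Or.inl hs
      · exact Or.inr (Or.inl hs)
  left
  have o1 : E p q ∧ ¬ isE x y p q := n1.resolve_right c1
  have o2 : E q r ∧ ¬ isE x y q r := n2.resolve_right c2
  have o3 : E r p ∧ ¬ isE x y r p := n3.resolve_right c3
  refine ⟨⟨o1.1, o2.1, o3.1, ?_, ?_⟩, ?_⟩
  · intro hh
    exact n4 (Or.inl (Or.inl ⟨hh, o1.2, o2.2, o3.2⟩))
  · intro hh
    exact n5 (Or.inl (Or.inl ⟨hh, fun e => o1.2 (isE_sw e), fun e => o3.2 (isE_sw e),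
      fun e => o2.2 (isE_sw e)⟩))
  · rintro ⟨a1, a2⟩
    rcases a1 with a1 | a1 | a1 <;> rcases a2 with a2 | a2 | a2
    · exact hxy (a1.trans a2.symm)
    · exact o1.2 (Or.inl ⟨a1.symm, a2.symm⟩)
    · exact o3.2 (Or.inr ⟨a2.symm, a1.symm⟩)
    · exact o1.2 (Or.inr ⟨a2.symm, a1.symm⟩)
    · exact hxy (a1.trans a2.symm)
    · exact o2.2 (Or.inl ⟨a1.symm, a2.symm⟩)
    · exact o3.2 (Or.inl ⟨a1.symm, a2.symm⟩)
    · exact o2.2 (Or.inr ⟨a2.symm, a1.symm⟩)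
    · exact hxy (a1.trans a2.symm)

end Pool.Agent.SGL.H90
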