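import Pool.Agent.SGL.StmtsA

/-!
# Squad SGL, row RCH: the set of the reached vertices is closed, contradiction
-/

set_option autoImplicit false

noncomputable section

namespace Pool.Agent.SGL.H90

open Pool.Agent.SGE Pool.Agent.SGP Pool.Agent.SGY Pool.Agent.SGD Pool.Agent.SGL

theorem chain_all {V : Type} {R : V → V → Prop} {P : V → Prop} (hRP : ∀ s t, R s t → P s → P t) :
    ∀ (L : List V) (a : V), (a :: L).IsChain R → P a → ∀ t ∈ a :: L, P t := by
  intro L
  induction L with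
  | nil =>
    intro a _ ha t ht
    rw [List.mem_singleton] at ht
    rw [ht]
    exact ha
  | cons b L ih =>
    intro a h1 ha t ht
    rw [List.isChain_cons_cons] at h1
    rw [List.mem_cons] at ht
    rcases ht with ht | ht
    · rw [ht]
      exact ha
    · exact ih b h1.2 (hRP a b h1.1 ha) t ht

theorem rch (rca : RcaStmt) (rcb : RcbStmt) : RchStmt := by
  intro V _ E Φ a z Q h hQ haz hRa x y hxy
  obtain ⟨hN, hax, hay⟩ := hQ.nf x y hxy
  have hx : x ∈ Yz E Φ z Q := by
    refine ⟨?_, Or.inl ⟨y, hxy⟩⟩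
    intro e
    have h1 := hN.2.2.1
    rw [e] at h1
    exact h.irr z h1
  have haY : a ∉ Yz E Φ z Q := by
    rintro ⟨-, ⟨q, hq⟩ | ⟨p, q, hpq, hF, -, -⟩⟩
    · exact (hQ.nf a q hq).2.1 rfl
    · exact (hQ.st p q a hpq (Or.inl hF)).2.1 rfl
  have hcl : ∀ w t, w ∈ Yz E Φ z Q → E w t → t = z ∨ t ∈ Yz E Φ z Q := by
    rintro w t ⟨hwz, ⟨q, hq⟩ | ⟨p, q, hpq, hF, h1, h2⟩⟩ hE
    · exact rca h hQ w q t hq hE
    · rcases rcb h hQ p q w t hpq hF h1 h2 hE with h3 | ⟨s, hs⟩
      · exact Or.inl h3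
      · by_cases ht : t = z
        · exact Or.inl ht
        · exact Or.inr ⟨ht, Or.inl ⟨s, hs⟩⟩
  have hzx : E z x := hN.2.2.1
  have hz : ∀ t, E z t → t ∈ Yz E Φ z Q := by
    intro t ht
    obtain ⟨l, c1, -, c3⟩ := h.cyc z x hzx
    have hstep : ∀ s t, Φ z s t → s ∈ Yz E Φ z Q → t ∈ Yz E Φ z Q := by
      intro s t hst hs
      have e1 := h.fe _ _ _ (h.rot _ _ _ hst)
      have e2 := h.fe _ _ _ (h.rot _ _ _ (h.rot _ _ _ hst))
      rcases hcl s t hs e1 with h4 | h4
      · rw [h4] at e2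
        exact absurd e2 (h.irr z)
      · exact h4
    have hall := chain_all hstep _ _ c1 hx
    apply hall t
    have h5 := (c3 t).1 ht
    rw [List.mem_cons] at h5 ⊢
    rcases h5 with h5 | h5
    · exact Or.inl h5
    · exact Or.inr (List.mem_append_left _ h5)
  obtain ⟨b, hb⟩ := hRa
  have hpath := h.con x y a b hN.1 hb
  have hfin : ∀ w, Relation.ReflTransGen E x w → w = z ∨ w ∈ Yz E Φ z Q := by
    intro w hw
    induction hw with
    | refl => exact Or.inr hx
    | tail _ hE ih =>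
      rcases ih with ih | ih
      · rw [ih] at hE
        exact Or.inr (hz _ hE)
      · exact hcl _ _ ih hE
  rcases hfin a hpath with h6 | h6
  · exact haz h6
  · exact haY h6

end Pool.Agent.SGL.H90
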