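import Pool.Agent.Helper90_SGL.Asm
import Pool.Agent.Helper90_SGL.FLB
import Pool.Agent.Helper90_SGL.RCH
import Pool.Agent.Helper41_SGL.AUF
import Pool.Agent.Helper35_SGL.SNF
import Pool.Agent.Helper3_SGL.AUG
import Pool.Agent.Helper70_SGL.QPM
import Pool.Agent.Helper5_SGL.CLB
import Pool.Agent.Helper51_SGL.CLA
import Pool.Agent.Helper80_SGL.FOK
import Pool.Agent.Helper50_SGL.CNT
import Pool.Agent.Helper24_SGL.NAD
import Pool.Agent.Helper46_SGL.COL
import Pool.Agent.Helper20_SGL.FLP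
import Pool.Agent.Helper53_SGL.FLH
import Pool.Agent.Helper9_SGL.ROC
import Pool.Agent.Helper28_SGL.CRN
import Pool.Agent.Helper71_SGL.SNT
import Pool.Agent.Helper67_SGL.NTS
import Pool.Agent.Helper61_SGL.RCA
import Pool.Agent.Helper69_SGL.RCB
import Pool.Agent.Helper34_SGL.MXT
import Pool.Agent.Helper84_SGL.TFR
import Pool.Agent.Helper21_SGL.NSG
import Pool.Agent.Helper90_SGL.FLN

/-!
# Squad SGL: assembly of part A (augmentation) and the final theorem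
-/

set_option autoImplicit false

noncomputable section

namespace Pool.Agent.SGL.H90

open Pool.Agent.SGE Pool.Agent.SGP Pool.Agent.SGY Pool.Agent.SGD Pool.Agent.SGL

theorem nts_ : NtsStmt := Pool.Agent.SGL.H67.nts Pool.Agent.SGL.H2.fcy Pool.Agent.SGD.H5.bn2

theorem nad_ : NadStmt := Pool.Agent.SGL.H24.nad Pool.Agent.SGL.H46.col

theorem flp_ : FlpStmt :=
  Pool.Agent.SGL.H20.flp (flb Pool.Agent.SGL.H9.roc) Pool.Agent.SGL.H53.flh

theorem cnt_ : CntStmt := Pool.Agent.SGL.H50.cnt nad_ flt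

theorem fok_ : FokStmt := Pool.Agent.SGL.H80.fok flp_ nad_ flt

theorem cla_ : ClaStmt := Pool.Agent.SGL.H51.cla cnt_ fok_

theorem clb_ : ClbStmt := Pool.Agent.SGL.H5.clb nad_ fln cnt_ fok_ cla_

theorem aug_ : AugStmt :=
  Pool.Agent.SGL.H3.aug (Pool.Agent.SGL.H70.qpm cla_ clb_)
    (rch Pool.Agent.SGL.H61.rca Pool.Agent.SGL.H69.rcb)

theorem auf_ : AufStmt :=
  Pool.Agent.SGL.H41.auf
    (Pool.Agent.SGL.H35.snf (Pool.Agent.SGD.H23.rlz Pool.Agent.SGD.H34.ccr Pool.Agent.SGD.H70.gnz)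
      nts_ Pool.Agent.SGL.H46.col) aug_ (Pool.Agent.SGL.H28.crn Pool.Agent.SGL.H71.snt)
    Pool.Agent.SGL.H21.nsg

/-- the final theorem -/
theorem fin_all (n : ℕ) (G₁ G₂ : SimpleGraph (Fin n)) (a : Fin n) (hG : ClG G₁ a)
    (t : Fin n) (h : ℕ) (lev pos : Fin n → ℕ) (hh : 1 ≤ h) (hL : LvU G₂ t h lev pos) :
    ∃ P : Finset (ℝ × ℝ), P.card = n ∧ (∃ f, Draw G₁ f ∧ ∀ u, f u ∈ P) ∧
      ∃ f, Draw G₂ f ∧ ∀ u, f u ∈ P := by
  have hn : 3 ≤ n := by
    obtain ⟨u, hu, hu0⟩ := hL.ne0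
    obtain ⟨w, hw, hwh⟩ := hL.neh
    have huw : u ≠ w := by
      rintro rfl
      omega
    have h1 : ({t, u, w} : Finset (Fin n)).card = 3 := by
      rw [Finset.card_eq_three]
      exact ⟨t, u, w, hu.symm, hw.symm, huw, rfl⟩
    have h2 := Finset.card_le_univ ({t, u, w} : Finset (Fin n))
    rw [h1, Fintype.card_fin] at h2
    exact h2
  obtain ⟨b, c, E, F, hNT, hle, hiso, hRel, hNS⟩ := auf_ G₁ a hn hG
  exact fnv_all n G₁ G₂ a b c E F hNT hiso hRel hNS hle t h lev pos hh hL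

/-- triangle-free planar graphs are in the class, for every vertex `a` -/
theorem tfr_ : TfrStmt := Pool.Agent.SGL.H84.tfr Pool.Agent.SGL.H34.mxt

end Pool.Agent.SGL.H90
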