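import Pool.Agent.SGE.Defs

/-!
# Squad SGL, upgrade U: normalization of a placement by barycentric coordinates

`nB A B C v = (α / γ, β / γ)` sends `A` to horizontal infinity, `B` to vertical infinity and `C` to
`(0, 0)`; `nT A B C v = (α / β, -γ / β)` sends `A` to horizontal infinity, `C` to vertical minus
infinity and `B` to `(0, 0)`; here `α = o B C v`, `β = o C A v`, `γ = o A B v`.
-/

set_option autoImplicit false

noncomputable section

namespace Pool.Agent.SGL.H90

open Pool.Agent.SGE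

/-- bottom normalization -/
def nB (A B C v : ℝ × ℝ) : ℝ × ℝ := (o B C v / o A B v, o C A v / o A B v)

/-- top normalization -/
def nT (A B C v : ℝ × ℝ) : ℝ × ℝ := (o B C v / o C A v, - o A B v / o C A v)

theorem det_bar (A B C p q r : ℝ × ℝ) : o p q r * o A B C ^ 2 =
    o B C p * (o C A q * o A B r - o A B q * o C A r)
      - o C A p * (o B C q * o A B r - o A B q * o B C r)
      + o A B p * (o B C q * o C A r - o C A q * o B C r) := by
  unfold o
  ring

theorem homo (u₁ v₁ w₁ u₂ v₂ w₂ u₃ v₃ w₃ : ℝ) (h₁ : w₁ ≠ 0) (h₂ : w₂ ≠ 0) (h₃ : w₃ ≠ 0) :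
    o (u₁ / w₁, v₁ / w₁) (u₂ / w₂, v₂ / w₂) (u₃ / w₃, v₃ / w₃) * (w₁ * w₂ * w₃) =
      u₁ * (v₂ * w₃ - w₂ * v₃) - v₁ * (u₂ * w₃ - w₂ * u₃) + w₁ * (u₂ * v₃ - v₂ * u₃) := by
  unfold o
  field_simp
  ring

theorem nB_o {A B C p q r : ℝ × ℝ} (hp : 0 < o A B p) (hq : 0 < o A B q) (hr : 0 < o A B r) :
    o (nB A B C p) (nB A B C q) (nB A B C r) * (o A B p * o A B q * o A B r) =
      o p q r * o A B C ^ 2 := by
  unfold nB
  rw [homo _ _ _ _ _ _ _ _ _ hp.ne' hq.ne' hr.ne', det_bar]

theorem nT_o {A B C p q r : ℝ × ℝ} (hp : 0 < o C A p) (hq : 0 < o C A q) (hr : 0 < o C A r) :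
    o (nT A B C p) (nT A B C q) (nT A B C r) * (o C A p * o C A q * o C A r) =
      o p q r * o A B C ^ 2 := by
  unfold nT
  rw [homo _ _ _ _ _ _ _ _ _ hp.ne' hq.ne' hr.ne', det_bar]
  ring

theorem sgn_eq {x y u v : ℝ} (h : x * u = y * v) (hu : 0 < u) (hv : 0 < v) :
    (0 < x ↔ 0 < y) ∧ (x = 0 ↔ y = 0) := by
  constructor
  · constructor
    · intro hx
      have h1 : 0 < y * v := h ▸ mul_pos hx hu
      exact pos_of_mul_pos_left h1 hv.le
    · intro hy
      have h1 : 0 < x * u := h ▸ mul_pos hy hv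
      exact pos_of_mul_pos_left h1 hu.le
  · constructor
    · intro hx
      rw [hx, zero_mul] at h
      rcases mul_eq_zero.1 h.symm with h1 | h1
      · exact h1
      · exact absurd h1 hv.ne'
    · intro hy
      rw [hy, zero_mul] at h
      rcases mul_eq_zero.1 h with h1 | h1
      · exact h1
      · exact absurd h1 hu.ne'

theorem nB_sgn {A B C p q r : ℝ × ℝ} (hδ : 0 < o A B C) (hp : 0 < o A B p) (hq : 0 < o A B q)
    (hr : 0 < o A B r) :
    (0 < o (nB A B C p) (nB A B C q) (nB A B C r) ↔ 0 < o p q r) ∧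
      (o (nB A B C p) (nB A B C q) (nB A B C r) = 0 ↔ o p q r = 0) :=
  sgn_eq (nB_o hp hq hr) (mul_pos (mul_pos hp hq) hr) (pow_pos hδ 2)

theorem nT_sgn {A B C p q r : ℝ × ℝ} (hδ : 0 < o A B C) (hp : 0 < o C A p) (hq : 0 < o C A q)
    (hr : 0 < o C A r) :
    (0 < o (nT A B C p) (nT A B C q) (nT A B C r) ↔ 0 < o p q r) ∧
      (o (nT A B C p) (nT A B C q) (nT A B C r) = 0 ↔ o p q r = 0) :=
  sgn_eq (nT_o hp hq hr) (mul_pos (mul_pos hp hq) hr) (pow_pos hδ 2)

/-- the x-order of the bottom normalization is the order around `B` -/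
theorem nB_x {A B C p q : ℝ × ℝ} (hδ : 0 < o A B C) (hp : 0 < o A B p) (hq : 0 < o A B q) :
    (nB A B C p).1 < (nB A B C q).1 ↔ 0 < o B p q := by
  have h : o B p q * o A B C = o A B p * o B C q - o B C p * o A B q := by unfold o; ring
  unfold nB
  show o B C p / o A B p < o B C q / o A B q ↔ _
  rw [div_lt_div_iff₀ hp hq]
  constructor
  · intro h1
    have h2 : 0 < o B p q * o A B C := by rw [h]; linarith
    exact pos_of_mul_pos_left h2 hδ.le
  · intro h1
    have h2 : 0 < o B p q * o A B C := mul_pos h1 hδ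
    rw [h] at h2
    linarith

/-- the y-order of the bottom normalization is the order around `A` -/
theorem nB_y {A B C p q : ℝ × ℝ} (hδ : 0 < o A B C) (hp : 0 < o A B p) (hq : 0 < o A B q) :
    (nB A B C q).2 < (nB A B C p).2 ↔ 0 < o A p q := by
  have h : o A p q * o A B C = o C A p * o A B q - o A B p * o C A q := by unfold o; ring
  unfold nB
  show o C A q / o A B q < o C A p / o A B p ↔ _
  rw [div_lt_div_iff₀ hq hp]
  constructor
  · intro h1
    have h2 : 0 < o A p q * o A B C := by rw [h]; linarith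
    exact pos_of_mul_pos_left h2 hδ.le
  · intro h1
    have h2 : 0 < o A p q * o A B C := mul_pos h1 hδ
    rw [h] at h2
    linarith

/-- the x-order of the top normalization is the reversed order around `C` -/
theorem nT_x {A B C p q : ℝ × ℝ} (hδ : 0 < o A B C) (hp : 0 < o C A p) (hq : 0 < o C A q) :
    (nT A B C q).1 < (nT A B C p).1 ↔ 0 < o C p q := by
  have h : o C p q * o A B C = o B C p * o C A q - o C A p * o B C q := by unfold o; ring
  unfold nT
  show o B C q / o C A q < o B C p / o C A p ↔ _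
  rw [div_lt_div_iff₀ hq hp]
  constructor
  · intro h1
    have h2 : 0 < o C p q * o A B C := by rw [h]; linarith
    exact pos_of_mul_pos_left h2 hδ.le
  · intro h1
    have h2 : 0 < o C p q * o A B C := mul_pos h1 hδ
    rw [h] at h2
    linarith

/-- the y-order of the top normalization is the order around `A` -/
theorem nT_y {A B C p q : ℝ × ℝ} (hδ : 0 < o A B C) (hp : 0 < o C A p) (hq : 0 < o C A q) :
    (nT A B C q).2 < (nT A B C p).2 ↔ 0 < o A p q := by
  have h : o A p q * o A B C = o C A p * o A B q - o A B p * o C A q := by unfold o; ring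
  unfold nT
  show - o A B q / o C A q < - o A B p / o C A p ↔ _
  rw [div_lt_div_iff₀ hq hp]
  constructor
  · intro h1
    have h2 : 0 < o A p q * o A B C := by rw [h]; linarith
    exact pos_of_mul_pos_left h2 hδ.le
  · intro h1
    have h2 : 0 < o A p q * o A B C := mul_pos h1 hδ
    rw [h] at h2
    linarith

end Pool.Agent.SGL.H90
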