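import Pool.Agent.SGL.DefsU
import Pool.Agent.Helper90_SGL.Cutp
import Pool.Agent.Helper90_SGL.Norm
import Pool.Agent.Helper65_SGD.ASM

/-!
# Squad SGL, upgrade U: the end slices exist for every state of the sweep and all depths
-/

set_option autoImplicit false

noncomputable section

namespace Pool.Agent.SGL.H90

open Pool.Agent.SGE Pool.Agent.SGP Pool.Agent.SGY Pool.Agent.SGD Pool.Agent.SGL

theorem o_rot (p q r : ℝ × ℝ) : o p q r = o q r p := by unfold o; ring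

theorem o_flip (p q r : ℝ × ℝ) : o p q r = - o p r q := by unfold o; ring

/-- the bottom slice -/
theorem endB (bnd : BndStmt) (may : MayStmt) {V : Type} [Fintype V] {a b c : V}
    {E : V → V → Prop} {F : V → V → V → Prop} {K : Set V} {C₁ C₂ : List V}
    (h : Stt a b c E F K C₁ C₂) (D : ℕ → ℕ) :
    ∃ (x y : V → ℝ) (π : ℕ → V), EndB a c F K K.ncard D x y π := by
  classical
  obtain ⟨E₂, F₂, nt2, inn2, r2⟩ := ctb bnd h
  obtain ⟨hab, hac, hbc⟩ := Pool.Agent.SGY.H6.nds h.nt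
  obtain ⟨ra, rb, rc⟩ := Pool.Agent.SGY.H6.rels nt2
  have haK : a ∉ K := fun hh => (h.sub hh).1 rfl
  have hbK : b ∉ K := fun hh => (h.sub hh).2.1 rfl
  have hcK : c ∉ K := fun hh => (h.sub hh).2.2.1 rfl
  have hI : Inn b c a E₂ = K := by
    rw [Pool.Agent.SGD.H65.inn_rot, Pool.Agent.SGD.H65.inn_rot, inn2]
  obtain ⟨f, π, hT', hY⟩ := may K.ncard D (Pool.Agent.SGP.H77.rot nt2) (by rw [hI])
  have hT : GdT a b c E₂ F₂ f := Pool.Agent.SGD.H65.gdt_rot (Pool.Agent.SGD.H65.gdt_rot hT')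
  rw [hI] at hY
  have hδ : 0 < o (f a) (f b) (f c) := hT.tri
  have hins : ∀ u ∈ K, 0 < o (f a) (f b) (f u) ∧ 0 < o (f b) (f c) (f u) ∧
      0 < o (f c) (f a) (f u) := fun u hu => hT.ins u (by rw [inn2]; exact hu)
  have hγ : ∀ u ∈ K ∪ {c}, 0 < o (f a) (f b) (f u) := by
    rintro u (hu | hu)
    · exact (hins u hu).1
    · rw [show u = c from hu]; exact hδ
  have hrel : ∀ u ∈ K ∪ {c}, Rel E₂ u := by
    rintro u (hu | hu)
    · have h1 : u ∈ Inn a b c E₂ := by rw [inn2]; exact hu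
      exact h1.2.2.2
    · rw [show u = c from hu]; exact rc
  have hua : ∀ u ∈ K ∪ {c}, u ≠ a := by
    rintro u (hu | hu) e
    · rw [e] at hu; exact haK hu
    · exact hac (e.symm.trans hu)
  have t2 : ∀ u, u ∈ K ∪ {a, c} → th2 a b c K u = u := by
    intro u hu
    unfold th2
    rw [if_pos]
    rcases hu with hu | hu | hu
    · exact Or.inl hu
    · exact Or.inr (Or.inl hu)
    · exact Or.inr (Or.inr hu)
  have t2' : ∀ u, u ∉ K ∪ {a, c} → th2 a b c K u = b := by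
    intro u hu
    unfold th2
    rw [if_neg]
    rintro (hh | hh | hh)
    · exact hu (Or.inl hh)
    · exact hu (Or.inr (Or.inl hh))
    · exact hu (Or.inr (Or.inr hh))
  have sub2 : ∀ u, u ∈ K ∪ {c} → u ∈ K ∪ {a, c} := by
    rintro u (hu | hu)
    · exact Or.inl hu
    · exact Or.inr (Or.inr hu)
  have hps : ∀ i, 1 ≤ i → i ≤ K.ncard + 1 → ps c a K.ncard π i ∈ K ∪ {c} := by
    intro i hi hi'
    rcases Pool.Agent.SGD.H65.ps_cases c a K.ncard π i with ⟨h1, -⟩ | ⟨h1, h2, h3⟩ | ⟨-, -, h3⟩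
    · omega
    · rw [h3]; exact Or.inl (hY.pin i h1 h2)
    · rw [h3]; exact Or.inr rfl
  have hpa : ps c a K.ncard π 0 = a := if_pos rfl
  have hpi : ∀ i, 1 ≤ i → i ≤ K.ncard → ps c a K.ncard π i = π i := by
    intro i hi hi'
    rcases Pool.Agent.SGD.H65.ps_cases c a K.ncard π i with ⟨h1, -⟩ | ⟨-, -, h3⟩ | ⟨h1, -, -⟩
    · omega
    · exact h3
    · omega
  refine ⟨fun v => (nB (f a) (f b) (f c) (f v)).1, fun v => (nB (f a) (f b) (f c) (f v)).2, π,
    hY.pin, hY.pij, hY.psu, ?_, ?_, ?_, ?_, ?_, ?_, ?_, ?_, ?_, ?_⟩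
  · intro i j hi hij hj
    have h1 := hY.rad i j hij (by omega)
    rw [hpi i hi (by omega), hpi j (by omega) hj] at h1
    exact (nB_x hδ (hγ _ (Or.inl (hY.pin j (by omega) hj)))
      (hγ _ (Or.inl (hY.pin i hi (by omega))))).2 h1
  · intro u hu
    exact (nB_x hδ (hγ c (Or.inr rfl)) (hγ u (Or.inl hu))).2 (hins u hu).2.1
  · intro u hu
    refine (nB_y hδ (hγ u (Or.inl hu)) (hγ c (Or.inr rfl))).2 ?_
    rw [o_rot, o_rot]
    exact (hins u hu).2.2
  · intro u hu v hv huv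
    have h1 := hT.gp a u v ra (hrel u hu) (hrel v hv) (fun e => hua u hu e.symm)
      (fun e => hua v hv e.symm) huv
    rcases lt_or_gt_of_ne h1 with h2 | h2
    · have h3 : 0 < o (f a) (f v) (f u) := by rw [o_flip]; linarith
      exact ((nB_y hδ (hγ v hv) (hγ u hu)).2 h3).ne
    · exact ((nB_y hδ (hγ u hu) (hγ v hv)).2 h2).ne'
  · intro u hu v hv w hw huv huw hvw h0
    exact hT.gp u v w (hrel u hu) (hrel v hv) (hrel w hw) huv huw hvw
      ((nB_sgn hδ (hγ u hu) (hγ v hv) (hγ w hw)).2.1 h0)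
  · intro u hu v hv w hw hF
    have h1 := r2 u v w hF (Or.inl ⟨hu, hv⟩)
    rw [t2 u (sub2 u hu), t2 v (sub2 v hv), t2 w (sub2 w hw)] at h1
    exact (nB_sgn hδ (hγ u hu) (hγ v hv) (hγ w hw)).1.2 (hT.fac u v w h1)
  · intro u hu v hv w hw hF
    have h1 := r2 u v w hF (Or.inl ⟨hu, hv⟩)
    rw [t2 u (sub2 u hu), t2 v (sub2 v hv), t2' w hw] at h1
    refine (nB_x hδ (hγ u hu) (hγ v hv)).2 ?_
    rw [o_rot]
    exact hT.fac u v b h1
  · intro u hu w hw hF
    have h1 := r2 u a w hF (Or.inr (Or.inr ⟨hw, hu⟩))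
    rw [t2 u (sub2 u hu), t2 a (Or.inr (Or.inl rfl)), t2 w (sub2 w hw)] at h1
    refine (nB_y hδ (hγ w hw) (hγ u hu)).2 ?_
    rw [← o_rot]
    exact hT.fac u a w h1
  · intro i l j hi hil hlj hj hEd
    exact (nB_sgn hδ (hγ _ (hps j (by omega) hj)) (hγ _ (hps i hi (by omega)))
      (hγ _ (hps l (by omega) (by omega)))).1.2 (hY.low i l j hil hlj hj hEd)
  · intro l j hl hlj hj hEd
    have h1 := hY.low 0 l j (by omega) hlj hj hEd
    rw [hpa] at h1
    refine (nB_y hδ (hγ _ (hps l hl (by omega))) (hγ _ (hps j (by omega) hj))).2 ?_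
    rw [← o_rot]
    exact h1

/-- the top slice -/
theorem endT (bnd : BndStmt) (bn2 : Bn2Stmt) (may : MayStmt) {V : Type} [Fintype V] {a b c : V}
    {E : V → V → Prop} {F : V → V → V → Prop} {K : Set V} {C₁ C₂ : List V}
    (h : Stt a b c E F K C₁ C₂) (D : ℕ → ℕ) :
    ∃ (x y : V → ℝ) (π : ℕ → V),
      EndT a b F (Inn a b c E \ K) (Inn a b c E \ K).ncard D x y π := by
  classical
  obtain ⟨E₁, F₁, nt1, inn1, r1⟩ := ctt bnd bn2 h
  obtain ⟨hab, hac, hbc⟩ := Pool.Agent.SGY.H6.nds h.nt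
  obtain ⟨ra, rb, rc⟩ := Pool.Agent.SGY.H6.rels nt1
  generalize hU : Inn a b c E \ K = U at *
  have hUm : ∀ u, u ∈ U ↔ u ∈ Inn a b c E ∧ u ∉ K := by
    intro u; rw [← hU]; exact Iff.rfl
  have haU : a ∉ U := fun hh => ((hUm a).1 hh).1.1 rfl
  have hbU : b ∉ U := fun hh => ((hUm b).1 hh).1.2.1 rfl
  have hcU : c ∉ U := fun hh => ((hUm c).1 hh).1.2.2.1 rfl
  have hbK : b ∉ K := fun hh => (h.sub hh).2.1 rfl
  have haK : a ∉ K := fun hh => (h.sub hh).1 rfl
  have hI : Inn c a b E₁ = U := by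
    rw [Pool.Agent.SGD.H65.inn_rot, inn1]
  obtain ⟨f, π, hT', hY⟩ := may U.ncard D
    (Pool.Agent.SGP.H77.rot (Pool.Agent.SGP.H77.rot nt1)) (by rw [hI])
  have hT : GdT a b c E₁ F₁ f := Pool.Agent.SGD.H65.gdt_rot hT'
  rw [hI] at hY
  have hδ : 0 < o (f a) (f b) (f c) := hT.tri
  have hins : ∀ u ∈ U, 0 < o (f a) (f b) (f u) ∧ 0 < o (f b) (f c) (f u) ∧
      0 < o (f c) (f a) (f u) := fun u hu => hT.ins u (by rw [inn1]; exact hu)
  have hγ : ∀ u ∈ U ∪ {b}, 0 < o (f c) (f a) (f u) := by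
    rintro u (hu | hu)
    · exact (hins u hu).2.2
    · rw [show u = b from hu, o_rot]; exact hδ
  have hrel : ∀ u ∈ U ∪ {b}, Rel E₁ u := by
    rintro u (hu | hu)
    · have h1 : u ∈ Inn a b c E₁ := by rw [inn1]; exact hu
      exact h1.2.2.2
    · rw [show u = b from hu]; exact rb
  have hua : ∀ u ∈ U ∪ {b}, u ≠ a := by
    rintro u (hu | hu) e
    · rw [e] at hu; exact haU hu
    · exact hab (e.symm.trans hu)
  have hout : ∀ u ∈ U ∪ {b}, u ∉ K ∪ {c} := by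
    rintro u (hu | hu) (hh | hh)
    · exact ((hUm u).1 hu).2 hh
    · exact ((hUm u).1 hu).1.2.2.1 hh
    · rw [show u = b from hu] at hh; exact hbK hh
    · rw [show u = b from hu] at hh; exact hbc hh
  have t1 : ∀ u, u ∉ K ∪ {c} → th1 c K u = u := by
    intro u hu
    unfold th1
    rw [if_neg (fun hh => hu (Or.inl hh))]
  have t1' : ∀ u, u ∈ K ∪ {c} → th1 c K u = c := by
    intro u hu
    unfold th1
    rcases hu with hu | hu
    · rw [if_pos hu]
    · rw [show u = c from hu]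
      exact ite_self c
  have haO : a ∉ K ∪ {c} := by
    rintro (hh | hh)
    · exact haK hh
    · exact hac hh
  have hps : ∀ i, i ≤ U.ncard → ps a b U.ncard π i ∈ U ∪ {b} := by
    intro i hi
    rcases Pool.Agent.SGD.H65.ps_cases a b U.ncard π i with ⟨-, h3⟩ | ⟨h1, h2, h3⟩ | ⟨h1, -, -⟩
    · rw [h3]; exact Or.inr rfl
    · rw [h3]; exact Or.inl (hY.pin i h1 h2)
    · omega
  have hpa : ps a b U.ncard π (U.ncard + 1) = a := by
    rcases Pool.Agent.SGD.H65.ps_cases a b U.ncard π (U.ncard + 1) with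
      ⟨h1, -⟩ | ⟨-, h1, -⟩ | ⟨-, -, h3⟩
    · omega
    · omega
    · exact h3
  have hpi : ∀ i, 1 ≤ i → i ≤ U.ncard → ps a b U.ncard π i = π i := by
    intro i hi hi'
    rcases Pool.Agent.SGD.H65.ps_cases a b U.ncard π i with ⟨h1, -⟩ | ⟨-, -, h3⟩ | ⟨h1, -, -⟩
    · omega
    · exact h3
    · omega
  refine ⟨fun v => (nT (f a) (f b) (f c) (f v)).1, fun v => (nT (f a) (f b) (f c) (f v)).2, π,
    hY.pin, hY.pij, hY.psu, ?_, ?_, ?_, ?_, ?_, ?_, ?_, ?_, ?_, ?_⟩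
  · intro i j hi hij hj
    have h1 := hY.rad i j hij (by omega)
    rw [hpi i hi (by omega), hpi j (by omega) hj] at h1
    exact (nT_x hδ (hγ _ (Or.inl (hY.pin j (by omega) hj)))
      (hγ _ (Or.inl (hY.pin i hi (by omega))))).2 h1
  · intro u hu
    refine (nT_x hδ (hγ u (Or.inl hu)) (hγ b (Or.inr rfl))).2 ?_
    rw [o_rot, o_rot]
    exact (hins u hu).2.1
  · intro u hu
    exact (nT_y hδ (hγ b (Or.inr rfl)) (hγ u (Or.inl hu))).2 (hins u hu).1
  · intro u hu v hv huv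
    have h1 := hT.gp a u v ra (hrel u hu) (hrel v hv) (fun e => hua u hu e.symm)
      (fun e => hua v hv e.symm) huv
    rcases lt_or_gt_of_ne h1 with h2 | h2
    · have h3 : 0 < o (f a) (f v) (f u) := by rw [o_flip]; linarith
      exact ((nT_y hδ (hγ v hv) (hγ u hu)).2 h3).ne
    · exact ((nT_y hδ (hγ u hu) (hγ v hv)).2 h2).ne'
  · intro u hu v hv w hw huv huw hvw h0
    exact hT.gp u v w (hrel u hu) (hrel v hv) (hrel w hw) huv huw hvw
      ((nT_sgn hδ (hγ u hu) (hγ v hv) (hγ w hw)).2.1 h0)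
  · intro u hu v hv w hw hF
    have h1 := r1 u v w hF (by
      rintro (⟨h2, -⟩ | ⟨h2, -⟩ | ⟨h2, -⟩)
      · exact hout u hu h2
      · exact hout v hv h2
      · exact hout w hw h2)
    rw [t1 u (hout u hu), t1 v (hout v hv), t1 w (hout w hw)] at h1
    exact (nT_sgn hδ (hγ u hu) (hγ v hv) (hγ w hw)).1.2 (hT.fac u v w h1)
  · intro u hu v hv w hw hF
    have huK : u ∈ K ∪ {c} := by
      by_contra hno
      apply hu
      by_cases hub : u = b
      · exact Or.inr (Or.inr hub)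
      by_cases hua' : u = a
      · exact Or.inr (Or.inl hua')
      left
      rw [hUm]
      exact ⟨⟨hua', hub, fun e => hno (Or.inr e), v, h.nt.fe _ _ _ hF⟩, fun hk => hno (Or.inl hk)⟩
    have h1 := r1 u v w hF (by
      rintro (⟨-, h2⟩ | ⟨h2, -⟩ | ⟨h2, -⟩)
      · exact hout v hv h2
      · exact hout v hv h2
      · exact hout w hw h2)
    rw [t1' u huK, t1 v (hout v hv), t1 w (hout w hw)] at h1
    exact (nT_x hδ (hγ v hv) (hγ w hw)).2 (hT.fac c v w h1)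
  · intro u hu w hw hF
    have h1 := r1 u a w hF (by
      rintro (⟨h2, -⟩ | ⟨h2, -⟩ | ⟨h2, -⟩)
      · exact hout u hu h2
      · exact haO h2
      · exact hout w hw h2)
    rw [t1 u (hout u hu), t1 a haO, t1 w (hout w hw)] at h1
    refine (nT_y hδ (hγ w hw) (hγ u hu)).2 ?_
    rw [← o_rot]
    exact hT.fac u a w h1
  · intro i l j hil hlj hj hEd
    exact (nT_sgn hδ (hγ _ (hps j hj)) (hγ _ (hps i (by omega)))
      (hγ _ (hps l (by omega)))).1.2 (hY.low i l j hil hlj (by omega) hEd)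
  · intro i l hil hl hEd
    have h1 := hY.low i l (U.ncard + 1) hil (by omega) le_rfl hEd
    rw [hpa] at h1
    exact (nT_y hδ (hγ _ (hps i (by omega))) (hγ _ (hps l hl))).2 h1

end Pool.Agent.SGL.H90
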