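import Pool.Agent.SGL.DefsU

/-!
# Squad SGL, upgrade U: the points `(x v, B ^ s v + y v)`, `B` large, and `a = (W, 0)`, `W` larger
-/

set_option autoImplicit false

noncomputable section

namespace Pool.Agent.SGL.H90

open Pool.Agent.SGE Pool.Agent.SGP Pool.Agent.SGY Pool.Agent.SGD Pool.Agent.SGL Filter

theorem pow_gap {B : ℝ} (hB : 1 ≤ B) {i k : ℕ} (h : i < k) :
    B ^ i ≤ B ^ (k - 1) ∧ B ^ k = B * B ^ (k - 1) ∧ 1 ≤ B ^ (k - 1) := by
  refine ⟨pow_le_pow_right₀ hB (by omega), ?_, one_le_pow₀ hB⟩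
  rw [← pow_succ']
  congr 1
  omega

/-- three points, one of them alone in the highest slice -/
theorem r1_ev (xp xq xr yp yq yr : ℝ) (i j k : ℕ) (hi : i < k) (hj : j < k) (hx : xp < xq) :
    ∀ᶠ B : ℝ in atTop, 0 < o (xp, B ^ i + yp) (xq, B ^ j + yq) (xr, B ^ k + yr) := by
  set M : ℝ := |yp| + |yq| + |yr| + |xr - xp| with hM
  set d : ℝ := xq - xp with hd
  have hd0 : 0 < d := by rw [hd]; linarith
  have hM0 : 0 ≤ M := by rw [hM]; positivity
  have e1 : |yp| ≤ M := by
    rw [hM]; nlinarith [abs_nonneg yq, abs_nonneg yr, abs_nonneg (xr - xp)]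
  have e2 : |yq| ≤ M := by
    rw [hM]; nlinarith [abs_nonneg yp, abs_nonneg yr, abs_nonneg (xr - xp)]
  have e3 : |yr| ≤ M := by
    rw [hM]; nlinarith [abs_nonneg yq, abs_nonneg yp, abs_nonneg (xr - xp)]
  have e4 : |xr - xp| ≤ M := by
    rw [hM]; nlinarith [abs_nonneg yq, abs_nonneg yr, abs_nonneg yp]
  filter_upwards [eventually_ge_atTop (1 : ℝ),
    eventually_gt_atTop ((d + 2 * M * d + (1 + 2 * M) * M) / d)] with B hB hB2
  obtain ⟨p1, p2, p3⟩ := pow_gap hB hi
  obtain ⟨q1, -, -⟩ := pow_gap hB hj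
  have p0 : 0 ≤ B ^ i := by positivity
  have q0 : 0 ≤ B ^ j := by positivity
  set L : ℝ := B ^ (k - 1) with hL
  rw [div_lt_iff₀ hd0] at hB2
  have a1 := abs_le.1 e1
  have a2 := abs_le.1 e2
  have a3 := abs_le.1 e3
  have hA : B * L - L - 2 * M ≤ (B ^ k + yr) - (B ^ i + yp) := by rw [p2]; linarith
  have hBb : |(B ^ j + yq) - (B ^ i + yp)| ≤ L + 2 * M := by
    rw [abs_le]; constructor <;> linarith
  have hC : ((B ^ j + yq) - (B ^ i + yp)) * (xr - xp) ≤ (L + 2 * M) * M := by
    refine le_trans (le_abs_self _) ?_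
    rw [abs_mul]
    exact mul_le_mul hBb e4 (abs_nonneg _) (by linarith)
  have hD : d * (B * L - L - 2 * M) ≤ d * ((B ^ k + yr) - (B ^ i + yp)) :=
    mul_le_mul_of_nonneg_left hA hd0.le
  have hE : 0 < d * (B * L - L - 2 * M) - (L + 2 * M) * M := by
    have h1 : 0 < B * d - (d + 2 * M * d + (1 + 2 * M) * M) := by linarith
    have h2 : 0 < L * (B * d - (d + 2 * M * d + (1 + 2 * M) * M)) :=
      mul_pos (by linarith) h1
    have h3 : 0 ≤ (L - 1) * (2 * M * d + 2 * M * M) := by
      apply mul_nonneg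
      · linarith
      · positivity
    nlinarith
  have hO : o (xp, B ^ i + yp) (xq, B ^ j + yq) (xr, B ^ k + yr) =
      d * ((B ^ k + yr) - (B ^ i + yp)) - ((B ^ j + yq) - (B ^ i + yp)) * (xr - xp) := by
    unfold o
    rw [hd]
  rw [hO]
  linarith

/-- three points, two of them in the highest slice -/
theorem r2_ev (xp xq xr yp yq yr : ℝ) (i k : ℕ) (hi : i < k) (hx : xp < xq) :
    ∀ᶠ B : ℝ in atTop, 0 < o (xq, B ^ k + yq) (xp, B ^ k + yp) (xr, B ^ i + yr) := by
  set M : ℝ := |yp| + |yq| + |yr| + |xr - xp| with hM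
  set d : ℝ := xq - xp with hd
  have hd0 : 0 < d := by rw [hd]; linarith
  have hM0 : 0 ≤ M := by rw [hM]; positivity
  have e1 : |yp| ≤ M := by
    rw [hM]; nlinarith [abs_nonneg yq, abs_nonneg yr, abs_nonneg (xr - xp)]
  have e2 : |yq| ≤ M := by
    rw [hM]; nlinarith [abs_nonneg yp, abs_nonneg yr, abs_nonneg (xr - xp)]
  have e3 : |yr| ≤ M := by
    rw [hM]; nlinarith [abs_nonneg yq, abs_nonneg yp, abs_nonneg (xr - xp)]
  have e4 : |xr - xp| ≤ M := by
    rw [hM]; nlinarith [abs_nonneg yq, abs_nonneg yr, abs_nonneg yp]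
  filter_upwards [eventually_ge_atTop (1 : ℝ),
    eventually_gt_atTop ((d + 2 * M * d + 2 * M * M) / d)] with B hB hB2
  obtain ⟨p1, p2, p3⟩ := pow_gap hB hi
  have p0 : 0 ≤ B ^ i := by positivity
  set L : ℝ := B ^ (k - 1) with hL
  rw [div_lt_iff₀ hd0] at hB2
  have a1 := abs_le.1 e1
  have a2 := abs_le.1 e2
  have a3 := abs_le.1 e3
  have hA : B * L - L - 2 * M ≤ (B ^ k + yp) - (B ^ i + yr) := by rw [p2]; linarith
  have hBb : |yp - yq| ≤ 2 * M := by
    rw [abs_le]; constructor <;> linarith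
  have hC : (yp - yq) * (xr - xp) ≤ (2 * M) * M := by
    refine le_trans (le_abs_self _) ?_
    rw [abs_mul]
    exact mul_le_mul hBb e4 (abs_nonneg _) (by linarith)
  have hD : d * (B * L - L - 2 * M) ≤ d * ((B ^ k + yp) - (B ^ i + yr)) :=
    mul_le_mul_of_nonneg_left hA hd0.le
  have hE : 0 < d * (B * L - L - 2 * M) - (2 * M) * M := by
    have h1 : 0 < B * d - (d + 2 * M * d + 2 * M * M) := by linarith
    have h2 : 0 < L * (B * d - (d + 2 * M * d + 2 * M * M)) :=
      mul_pos (by linarith) h1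
    have h3 : 0 ≤ (L - 1) * (2 * M * d + 2 * M * M) := by
      apply mul_nonneg
      · linarith
      · positivity
    nlinarith
  have hO : o (xq, B ^ k + yq) (xp, B ^ k + yp) (xr, B ^ i + yr) =
      d * ((B ^ k + yp) - (B ^ i + yr)) - (yp - yq) * (xr - xp) := by
    unfold o
    simp only
    rw [hd]
    ring
  rw [hO]
  linarith

/-- heights of different slices -/
theorem r4_ev (yp yq : ℝ) (i k : ℕ) (hi : i < k) :
    ∀ᶠ B : ℝ in atTop, B ^ i + yp < B ^ k + yq := by
  filter_upwards [eventually_ge_atTop (1 : ℝ),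
    eventually_gt_atTop (1 + |yp| + |yq|)] with B hB hB2
  obtain ⟨p1, p2, p3⟩ := pow_gap hB hi
  set L : ℝ := B ^ (k - 1) with hL
  rw [p2]
  have h1 : 0 ≤ (L - 1) * (B - 1) := mul_nonneg (by linarith) (by linarith)
  have h2 := le_abs_self yp
  have h3 := neg_abs_le yq
  nlinarith

/-- the point `a` -/
theorem r5_ev (xp xq Yp Yq : ℝ) (h : Yp < Yq) :
    ∀ᶠ W : ℝ in atTop, 0 < o (W, 0) (xq, Yq) (xp, Yp) := by
  filter_upwards [eventually_gt_atTop ((xp * Yq - xq * Yp) / (Yq - Yp))] with W hW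
  have hd : 0 < Yq - Yp := by linarith
  rw [div_lt_iff₀ hd] at hW
  unfold o
  simp only
  nlinarith

theorem geo {V : Type} [Finite V] (a : V) (s : V → ℕ) (x y : V → ℝ) :
    ∃ B W : ℝ, 
      (∀ p q r, p ≠ a → q ≠ a → r ≠ a → s p < s r → s q < s r → x p < x q →
        0 < o (cu a s x y B W p) (cu a s x y B W q) (cu a s x y B W r)) ∧
      (∀ p q r, p ≠ a → q ≠ a → r ≠ a → s p = s q → s r < s p → x p < x q →
        0 < o (cu a s x y B W q) (cu a s x y B W p) (cu a s x y B W r)) ∧
      (∀ p q r, p ≠ a → q ≠ a → r ≠ a → s p = s q → s q = s r →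
        o (cu a s x y B W p) (cu a s x y B W q) (cu a s x y B W r) =
          o (pv x y p) (pv x y q) (pv x y r)) ∧
      (∀ p q, p ≠ a → q ≠ a → s p < s q →
        0 < o (cu a s x y B W a) (cu a s x y B W q) (cu a s x y B W p)) ∧
      (∀ p q, p ≠ a → q ≠ a → s p = s q → y p < y q →
        0 < o (cu a s x y B W a) (cu a s x y B W q) (cu a s x y B W p)) ∧
      (∀ p, p ≠ a → (cu a s x y B W p).1 = x p ∧ x p < W) ∧ cu a s x y B W a = (W, 0) := by
  classical
  have hB : ∀ᶠ B : ℝ in atTop,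
      (∀ p q r, s p < s r → s q < s r → x p < x q →
        0 < o (x p, B ^ s p + y p) (x q, B ^ s q + y q) (x r, B ^ s r + y r)) ∧
      (∀ p q r, s p = s q → s r < s p → x p < x q →
        0 < o (x q, B ^ s q + y q) (x p, B ^ s p + y p) (x r, B ^ s r + y r)) ∧
      (∀ p q, s p < s q → B ^ s p + y p < B ^ s q + y q) := by
    refine Eventually.and ?_ (Eventually.and ?_ ?_)
    · refine eventually_all.2 fun p => eventually_all.2 fun q => eventually_all.2 fun r => ?_
      by_cases h1 : s p < s r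
      · by_cases h2 : s q < s r
        · by_cases h3 : x p < x q
          · filter_upwards [r1_ev (x p) (x q) (x r) (y p) (y q) (y r) _ _ _ h1 h2 h3] with B hB
            exact fun _ _ _ => hB
          · exact Eventually.of_forall fun B _ _ h => absurd h h3
        · exact Eventually.of_forall fun B _ h _ => absurd h h2
      · exact Eventually.of_forall fun B h _ _ => absurd h h1
    · refine eventually_all.2 fun p => eventually_all.2 fun q => eventually_all.2 fun r => ?_
      by_cases h1 : s p = s q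
      · by_cases h2 : s r < s p
        · by_cases h3 : x p < x q
          · filter_upwards [r2_ev (x p) (x q) (x r) (y p) (y q) (y r) _ _ h2 h3] with B hB
            intro _ _ _
            rw [← h1]
            exact hB
          · exact Eventually.of_forall fun B _ _ h => absurd h h3
        · exact Eventually.of_forall fun B _ h _ => absurd h h2
      · exact Eventually.of_forall fun B h _ _ => absurd h h1
    · refine eventually_all.2 fun p => eventually_all.2 fun q => ?_
      by_cases h1 : s p < s q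
      · filter_upwards [r4_ev (y p) (y q) _ _ h1] with B hB
        exact fun _ => hB
      · exact Eventually.of_forall fun B h => absurd h h1
  obtain ⟨B, h1, h2, h4⟩ := hB.exists
  have hW : ∀ᶠ W : ℝ in atTop,
      (∀ p q, B ^ s p + y p < B ^ s q + y q →
        0 < o (W, 0) (x q, B ^ s q + y q) (x p, B ^ s p + y p)) ∧ ∀ p, x p < W := by
    refine Eventually.and ?_ ?_
    · refine eventually_all.2 fun p => eventually_all.2 fun q => ?_
      by_cases h : B ^ s p + y p < B ^ s q + y q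
      · filter_upwards [r5_ev (x p) (x q) _ _ h] with W hW
        exact fun _ => hW
      · exact Eventually.of_forall fun W h' => absurd h' h
    · exact eventually_all.2 fun p => eventually_gt_atTop (x p)
  obtain ⟨W, h5, h6⟩ := hW.exists
  have hc : ∀ p, p ≠ a → cu a s x y B W p = (x p, B ^ s p + y p) := fun p hp => if_neg hp
  have hca : cu a s x y B W a = (W, 0) := if_pos rfl
  refine ⟨B, W, ?_, ?_, ?_, ?_, ?_, ?_, hca⟩
  · intro p q r hp hq hr a1 a2 a3
    rw [hc p hp, hc q hq, hc r hr]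
    exact h1 p q r a1 a2 a3
  · intro p q r hp hq hr a1 a2 a3
    rw [hc p hp, hc q hq, hc r hr]
    exact h2 p q r a1 a2 a3
  · intro p q r hp hq hr a1 a2
    rw [hc p hp, hc q hq, hc r hr, ← a2, ← a1]
    unfold o pv
    simp only
    ring
  · intro p q hp hq a1
    rw [hc p hp, hc q hq, hca]
    exact h5 p q (h4 p q a1)
  · intro p q hp hq a1 a2
    rw [hc p hp, hc q hq, hca]
    exact h5 p q (by rw [a1]; linarith)
  · intro p hp
    rw [hc p hp]
    exact ⟨rfl, h6 p⟩

end Pool.Agent.SGL.H90
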