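import Pool.Agent.SGL.DefsU

/-!
# Squad SGL: every planar graph is contained in a maximal planar graph
-/

set_option autoImplicit false

noncomputable section

namespace Pool.Agent.SGL.H90

open Pool.Agent.SGE Pool.Agent.SGP Pool.Agent.SGY Pool.Agent.SGD Pool.Agent.SGL

theorem maxpl_exists {n : ℕ} (G : SimpleGraph (Fin n)) (hG : ∃ f, Draw G f) :
    ∃ T : SimpleGraph (Fin n), MaxPl T ∧ G ≤ T := by
  obtain ⟨T, hGT, hT⟩ := Set.Finite.exists_le_maximal
    (Set.toFinite {T : SimpleGraph (Fin n) | ∃ f, Draw T f}) (show G ∈ _ from hG)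
  refine ⟨T, ⟨hT.1, ?_⟩, hGT⟩
  intro T' hle hp
  exact le_antisymm (hT.2 hp hle) hle

end Pool.Agent.SGL.H90
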